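import Pool.Agent.X112.LF.Va

/-! # Taylor expansion and the characteristic function of a prime polynomial -/

set_option autoImplicit false

namespace Pool.Agent.X112.WE

open MeasureTheory Complex Finset
open scoped ComplexConjugate Nat
open Pool.Agent.Y743.CL (Pr mem_Pr pr pr_apply VS VS_nonneg SS SS_le SS_lower SS_nonneg SS_zero)
open Pool.Agent.X112.LF (CM Gw Gw_cont mom_bdw)

/-- Taylor expansion in the left half plane -/
lemma taylor_aux {z : ℂ} (hz : z.re ≤ 0) (n : ℕ) : ∀ t : ℝ, 0 ≤ t →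
    ‖cexp ((t : ℂ) * z) - ∑ k ∈ range n, ((t : ℂ) * z) ^ k / (k ! : ℂ)‖ ≤ ‖z‖ ^ n * t ^ n / n ! := by
  induction n with
  | zero =>
    intro t ht
    rw [Finset.range_zero, Finset.sum_empty, sub_zero, Complex.norm_exp]
    simp only [pow_zero, Nat.factorial_zero, Nat.cast_one, mul_one, div_one]
    rw [Real.exp_le_one_iff]
    simp only [Complex.mul_re, Complex.ofReal_re, Complex.ofReal_im, zero_mul, sub_zero]
    nlinarith
  | succ n ih =>
    intro t ht
    obtain ⟨g, hg⟩ : ∃ g : ℝ → ℂ, g = fun u : ℝ => cexp ((u : ℂ) * z) - ∑ k ∈ range n, ((u : ℂ) * z) ^ k / (k ! : ℂ) :=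
      ⟨_, rfl⟩
    have hd : ∀ u : ℝ, HasDerivAt (fun u : ℝ => cexp ((u : ℂ) * z) - ∑ k ∈ range (n + 1), ((u : ℂ) * z) ^ k / (k ! : ℂ))
        (z * g u) u := by
      intro u
      have h1 : HasDerivAt (fun u : ℝ => (u : ℂ) * z) z u := by
        have := (Complex.ofRealCLM.hasDerivAt (x := u)).mul_const z
        simpa using this
      have h2 : HasDerivAt (fun u : ℝ => cexp ((u : ℂ) * z)) (cexp ((u : ℂ) * z) * z) u := h1.cexp
      have h3 : HasDerivAt (fun u : ℝ => ∑ k ∈ range (n + 1), ((u : ℂ) * z) ^ k / (k ! : ℂ))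
          (∑ k ∈ range n, z * (((u : ℂ) * z) ^ k / (k ! : ℂ))) u := by
        have h4 : (fun u : ℝ => ∑ k ∈ range (n + 1), ((u : ℂ) * z) ^ k / (k ! : ℂ)) =
            fun u : ℝ => ∑ k ∈ range n, ((u : ℂ) * z) ^ (k + 1) / ((k + 1)! : ℂ) + 1 := by
          funext u
          rw [Finset.sum_range_succ']
          simp
        rw [h4]
        refine HasDerivAt.add_const _ ?_
        refine HasDerivAt.fun_sum fun k _ => ?_
        have h5 := (h1.pow (k + 1)).div_const ((k + 1)! : ℂ)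
        refine h5.congr_deriv ?_
        rw [Nat.factorial_succ]
        have hk : (k ! : ℂ) ≠ 0 := by exact_mod_cast k.factorial_ne_zero
        have hk1 : ((k : ℂ) + 1) ≠ 0 := by exact_mod_cast Nat.succ_ne_zero k
        push_cast
        field_simp
      refine (h2.sub h3).congr_deriv ?_
      rw [hg, ← Finset.mul_sum]
      ring
    have hgc : Continuous g := by
      rw [hg]
      fun_prop
    have h0 := intervalIntegral.integral_eq_sub_of_hasDerivAt (a := 0) (b := t) (fun u _ => hd u)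
      ((continuous_const.mul hgc).intervalIntegrable _ _)
    have e0 : cexp (((0 : ℝ) : ℂ) * z) - ∑ k ∈ range (n + 1), (((0 : ℝ) : ℂ) * z) ^ k / (k ! : ℂ) = 0 := by
      rw [Finset.sum_range_succ']
      simp
    rw [e0, sub_zero] at h0
    rw [← h0]
    have h6 : ‖∫ u in (0 : ℝ)..t, z * g u‖ ≤ ∫ u in (0 : ℝ)..t, ‖z‖ ^ (n + 1) * u ^ n / n ! := by
      apply intervalIntegral.norm_integral_le_of_norm_le ht
      · refine Filter.Eventually.of_forall fun u hu => ?_
        rw [norm_mul]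
        have := ih u hu.1.le
        rw [hg]
        calc ‖z‖ * ‖cexp ((u : ℂ) * z) - ∑ k ∈ range n, ((u : ℂ) * z) ^ k / (k ! : ℂ)‖ ≤
              ‖z‖ * (‖z‖ ^ n * u ^ n / n !) := mul_le_mul_of_nonneg_left this (norm_nonneg _)
          _ = _ := by ring
      · exact (Continuous.intervalIntegrable (by fun_prop) _ _)
    refine h6.trans (le_of_eq ?_)
    have e1 : ∀ u : ℝ, ‖z‖ ^ (n + 1) * u ^ n / n ! = ‖z‖ ^ (n + 1) / n ! * u ^ n := fun u => by ring
    simp only [e1]
    rw [intervalIntegral.integral_const_mul, integral_pow, Nat.factorial_succ]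
    have hn : (n ! : ℝ) ≠ 0 := by exact_mod_cast n.factorial_ne_zero
    have hn1 : ((n : ℝ) + 1) ≠ 0 := by positivity
    push_cast
    field_simp
    simp

lemma taylor {z : ℂ} (hz : z.re ≤ 0) (n : ℕ) :
    ‖cexp z - ∑ k ∈ range n, z ^ k / (k ! : ℂ)‖ ≤ ‖z‖ ^ n / n ! := by
  have := taylor_aux hz n 1 zero_le_one
  simpa using this

/-- the main term of a moment -/
noncomputable def mu (c : ℕ → ℝ) (X k : ℕ) : ℝ :=
  if Even k then (k.choose (k / 2) : ℝ) / 2 ^ k * SS c X (k / 2) else 0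

lemma mom_re (c : ℕ → ℝ) {w : ℕ → ℂ} (hw : CM w) (hw1 : ∀ n : ℕ, n ≠ 0 → ‖w n‖ = 1)
    (X : ℕ) (hX : 1 ≤ X) (T A B : ℝ) (hT : 1 ≤ T) (hAB : A ≤ B) (k : ℕ)
    (hXT : ((X ^ k : ℕ) : ℝ) ≤ Real.sqrt T) :
    |(∫ t in A..B, (Gw c w X t).re ^ k) - (B - A) * mu c X k| ≤
      8 * (Real.sqrt T * (1 + Real.log T)) * Real.sqrt (k ! * VS c X ^ k) := by
  obtain ⟨V, hV⟩ : ∃ V : ℝ, V = VS c X := ⟨_, rfl⟩
  have hV0 : 0 ≤ V := by rw [hV]; exact VS_nonneg c X
  have hlog : 0 ≤ Real.log T := Real.log_nonneg hT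
  obtain ⟨Gf, hG⟩ : ∃ Gf : ℝ → ℂ, Gf = Gw c w X := ⟨_, rfl⟩
  have hGc : Continuous Gf := by rw [hG]; exact Gw_cont c w X
  have e1 : ∀ t : ℝ, (((Gf t).re ^ k : ℝ) : ℂ) =
      ∑ l ∈ range (k + 1), ((k.choose l : ℝ) / 2 ^ k : ℝ) * (Gf t ^ l * conj (Gf t) ^ (k - l)) := by
    intro t
    have h1 : ((Gf t).re : ℂ) = (Gf t + conj (Gf t)) / 2 := by
      rw [Complex.add_conj]
      push_cast
      ring
    push_cast
    rw [h1, div_pow, add_pow, Finset.sum_div]
    refine Finset.sum_congr rfl fun l _ => ?_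
    ring
  have e2 : ((∫ t in A..B, (Gf t).re ^ k : ℝ) : ℂ) =
      ∑ l ∈ range (k + 1), ((k.choose l : ℝ) / 2 ^ k : ℝ) * ∫ t in A..B, Gf t ^ l * conj (Gf t) ^ (k - l) := by
    rw [← intervalIntegral.integral_ofReal]
    simp only [e1]
    rw [intervalIntegral.integral_finsetSum]
    · refine Finset.sum_congr rfl fun l _ => ?_
      rw [intervalIntegral.integral_const_mul]
    · intro l _
      apply Continuous.intervalIntegrable
      exact continuous_const.mul ((hGc.pow l).mul ((Complex.continuous_conj.comp hGc).pow (k - l)))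
  have e3 : (((B - A) * mu c X k : ℝ) : ℂ) = ∑ l ∈ range (k + 1), ((k.choose l : ℝ) / 2 ^ k : ℝ) *
      (((B - A : ℝ) : ℂ) * (if l = k - l then (SS c X l : ℂ) else 0)) := by
    unfold mu
    by_cases hk : Even k
    · rw [if_pos hk]
      obtain ⟨a, ha⟩ := hk
      have ha2 : k / 2 = a := by omega
      rw [ha2]
      rw [Finset.sum_eq_single a]
      · rw [if_pos (by omega)]
        push_cast
        ring
      · intro l hl hla
        rw [if_neg (by rw [Finset.mem_range] at hl; omega), mul_zero, mul_zero]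
      · intro h
        exact absurd (Finset.mem_range.2 (by omega)) h
    · rw [if_neg hk, mul_zero, Complex.ofReal_zero]
      symm
      refine Finset.sum_eq_zero fun l hl => ?_
      rw [Finset.mem_range] at hl
      rw [if_neg, mul_zero, mul_zero]
      intro h
      exact hk ⟨l, by omega⟩
  have e4 : ∀ l ∈ range (k + 1), ‖(((k.choose l : ℝ) / 2 ^ k : ℝ) : ℂ) * (∫ t in A..B, Gf t ^ l * conj (Gf t) ^ (k - l)) -
      (((k.choose l : ℝ) / 2 ^ k : ℝ) : ℂ) * (((B - A : ℝ) : ℂ) * (if l = k - l then (SS c X l : ℂ) else 0))‖ ≤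
      ((k.choose l : ℝ) / 2 ^ k) * (8 * (Real.sqrt T * (1 + Real.log T)) * Real.sqrt (k ! * V ^ k)) := by
    intro l hl
    rw [Finset.mem_range] at hl
    rw [← mul_sub, norm_mul, Complex.norm_real, Real.norm_eq_abs, abs_of_nonneg (by positivity)]
    apply mul_le_mul_of_nonneg_left _ (by positivity)
    have h1 := mom_bdw c hw hw1 X hX T A B hT hAB l (k - l) (by
      rw [show l + (k - l) = k by omega]; exact hXT)
    rw [← hG, ← hV] at h1
    refine h1.trans ?_
    apply mul_le_mul_of_nonneg_left _ (by positivity)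
    rw [← Real.sqrt_mul (by positivity)]
    apply Real.sqrt_le_sqrt
    have h2 : ((l ! : ℝ) * V ^ l) * (((k - l)! : ℝ) * V ^ (k - l)) = ((l ! * (k - l)! : ℕ) : ℝ) * V ^ k := by
      push_cast
      rw [show V ^ k = V ^ l * V ^ (k - l) by rw [← pow_add]; congr 1; omega]
      ring
    rw [h2]
    apply mul_le_mul_of_nonneg_right _ (by positivity)
    have h3 := Nat.choose_mul_factorial_mul_factorial (show l ≤ k by omega)
    have h4 : 1 ≤ k.choose l := Nat.choose_pos (by omega)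
    have h5 : l ! * (k - l)! ≤ k ! := by
      rw [← h3, mul_assoc]
      exact Nat.le_mul_of_pos_left _ h4
    exact_mod_cast h5
  have e5 : |(∫ t in A..B, (Gf t).re ^ k) - (B - A) * mu c X k| =
      ‖((∫ t in A..B, (Gf t).re ^ k : ℝ) : ℂ) - (((B - A) * mu c X k : ℝ) : ℂ)‖ := by
    rw [← Complex.ofReal_sub, Complex.norm_real, Real.norm_eq_abs]
  rw [← hG, ← hV, e5, e2, e3, ← Finset.sum_sub_distrib]
  refine (norm_sum_le _ _).trans ((Finset.sum_le_sum e4).trans (le_of_eq ?_))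
  rw [← Finset.sum_mul, ← Finset.sum_div]
  have h6 : ∑ l ∈ range (k + 1), (k.choose l : ℝ) = 2 ^ k := by
    exact_mod_cast Nat.sum_range_choose k
  rw [h6, div_self (by positivity), one_mul]

lemma pr_pr (c : ℕ → ℝ) (X : ℕ) : pr (fun n => pr c X n) X = pr c X := by
  ext n
  rw [pr_apply, pr_apply]
  split_ifs <;> rfl

/-- the moments of the coefficients are close to those of a gaussian -/
lemma SS_near (W0 : ℝ) (hW0 : 1 ≤ W0) (a : ℕ) : ∃ K : ℝ, 0 ≤ K ∧ ∀ (c : ℕ → ℝ) (X : ℕ) (M : ℝ), 0 ≤ M →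
    (∀ p ∈ Pr X, c p ^ 2 ≤ M) → VS c X ≤ W0 → (a ! : ℝ) * VS c X ^ a - SS c X a ≤ M * K := by
  induction a with
  | zero =>
    refine ⟨0, le_rfl, fun c X M hM hc hW => ?_⟩
    rw [SS_zero]
    simp
  | succ a ih =>
    obtain ⟨K, hK, h⟩ := ih
    refine ⟨(a + 1) * W0 * K + (a + 1) * a * (a ! * W0 ^ a), by positivity, fun c X M hM hc hW => ?_⟩
    have h1 := h c X M hM hc hW
    have hV := VS_nonneg c X
    have h2 := SS_le c X a
    -- the lower bound
    have h3 : (a + 1) * ((VS c X - a * M) * SS c X a) ≤ SS c X (a + 1) := by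
      have e1 : SS (fun n => pr c X n) X = SS c X := by
        funext k
        unfold SS
        rw [pr_pr]
      have e2 : VS (fun n => pr c X n) X = VS c X := by
        unfold VS
        refine Finset.sum_congr rfl fun p hp => ?_
        rw [mem_Pr] at hp
        show (pr c X p) ^ 2 = c p ^ 2
        rw [pr_apply, if_pos hp]
      have := SS_lower (c := fun n => pr c X n) (X := X) (M := M) (fun p => by
        show (pr c X p) ^ 2 ≤ M
        rw [pr_apply]
        split_ifs with hp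
        · exact hc p (mem_Pr.2 hp)
        · simpa using hM) a
      rwa [e1, e2] at this
    have h4 : (a ! : ℝ) * VS c X ^ a ≤ a ! * W0 ^ a :=
      mul_le_mul_of_nonneg_left (pow_le_pow_left₀ hV hW a) (by positivity)
    rw [Nat.factorial_succ]
    push_cast
    have h5 : ((a : ℝ) + 1) * (VS c X * ((a ! : ℝ) * VS c X ^ a - SS c X a)) ≤ (a + 1) * (W0 * (M * K)) := by
      apply mul_le_mul_of_nonneg_left _ (by positivity)
      calc VS c X * ((a ! : ℝ) * VS c X ^ a - SS c X a) ≤ VS c X * (M * K) := mul_le_mul_of_nonneg_left h1 hV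
        _ ≤ W0 * (M * K) := mul_le_mul_of_nonneg_right hW (by positivity)
    have h6 : ((a : ℝ) + 1) * (a * (M * SS c X a)) ≤ (a + 1) * (a * (M * (a ! * W0 ^ a))) := by
      apply mul_le_mul_of_nonneg_left _ (by positivity)
      apply mul_le_mul_of_nonneg_left _ (by positivity)
      exact mul_le_mul_of_nonneg_left (h2.trans h4) hM
    have e : ((a : ℝ) + 1) * (a ! : ℝ) * VS c X ^ (a + 1) - SS c X (a + 1) ≤
        ((a : ℝ) + 1) * (VS c X * ((a ! : ℝ) * VS c X ^ a - SS c X a)) + ((a : ℝ) + 1) * (a * (M * SS c X a)) := by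
      rw [pow_succ]
      linarith
    refine e.trans ((add_le_add h5 h6).trans (le_of_eq ?_))
    ring

/-- the characteristic function of the real part of a short prime polynomial -/
theorem cf_bd (m : ℕ) (W0 : ℝ) (hW0 : 1 ≤ W0) : ∃ K : ℝ, 0 ≤ K ∧ ∀ (c : ℕ → ℝ) (w : ℕ → ℂ), CM w →
    (∀ n : ℕ, n ≠ 0 → ‖w n‖ = 1) → ∀ (X : ℕ) (T A B M : ℝ), 1 ≤ X → 1 ≤ T → A ≤ B → B - A ≤ T →
    ((X ^ (2 * m) : ℕ) : ℝ) ≤ Real.sqrt T → 0 ≤ M → (∀ p ∈ Pr X, c p ^ 2 ≤ M) → VS c X ≤ W0 →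
    ‖∫ t in A..B, cexp (((Gw c w X t).re : ℂ) * I)‖ ≤
      T * (Real.exp (-(VS c X / 4)) + 2 * ((VS c X / 4) ^ m / m !)) +
      K * (M * T + Real.sqrt T * (1 + Real.log T)) := by
  choose Kf hKf0 hKf using fun a => SS_near W0 hW0 a
  obtain ⟨K1, hK1⟩ : ∃ K1 : ℝ, K1 = ∑ a ∈ range m, Kf a := ⟨_, rfl⟩
  obtain ⟨K2, hK2⟩ : ∃ K2 : ℝ, K2 = Real.sqrt ((2 * m)! * W0 ^ (2 * m)) := ⟨_, rfl⟩
  have hK10 : 0 ≤ K1 := by rw [hK1]; exact Finset.sum_nonneg fun a _ => hKf0 a
  have hK20 : 0 ≤ K2 := by rw [hK2]; positivity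
  refine ⟨K1 + 8 * K2 * (2 * m + 1), by positivity, fun c w hw hw1 X T A B M hX hT hAB hBA hXT hM hc hW => ?_⟩
  obtain ⟨V, hV⟩ : ∃ V : ℝ, V = VS c X := ⟨_, rfl⟩
  have hV0 : 0 ≤ V := by rw [hV]; exact VS_nonneg c X
  have hlog : 0 ≤ Real.log T := Real.log_nonneg hT
  have hT0 : 0 < T := by linarith
  obtain ⟨Er, hEr⟩ : ∃ Er : ℝ, Er = 8 * (Real.sqrt T * (1 + Real.log T)) * K2 := ⟨_, rfl⟩
  have hEr0 : 0 ≤ Er := by rw [hEr]; positivity
  obtain ⟨Y, hY⟩ : ∃ Y : ℝ → ℝ, Y = fun t => (Gw c w X t).re := ⟨_, rfl⟩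
  have hYc : Continuous Y := by rw [hY]; exact Complex.continuous_re.comp (Gw_cont c w X)
  have hX1 : (1 : ℝ) ≤ X := by exact_mod_cast hX
  -- the moments
  have hmom : ∀ k, k ≤ 2 * m → |(∫ t in A..B, Y t ^ k) - (B - A) * mu c X k| ≤ Er := by
    intro k hk
    rw [hY]
    refine (mom_re c hw hw1 X hX T A B hT hAB k ?_).trans ?_
    · refine le_trans ?_ hXT
      push_cast
      exact pow_le_pow_right₀ hX1 hk
    · rw [hEr]
      apply mul_le_mul_of_nonneg_left _ (by positivity)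
      rw [hK2]
      apply Real.sqrt_le_sqrt
      have h1 : (k ! : ℝ) ≤ (2 * m)! := by exact_mod_cast Nat.factorial_le hk
      have h2 : VS c X ^ k ≤ W0 ^ (2 * m) :=
        (pow_le_pow_left₀ (VS_nonneg c X) hW k).trans (pow_le_pow_right₀ hW0 hk)
      exact mul_le_mul h1 h2 (pow_nonneg (VS_nonneg c X) k) (by positivity)
  have hBA0 : 0 ≤ B - A := by linarith
  -- Taylor
  have hT1 : ‖(∫ t in A..B, cexp ((Y t : ℂ) * I)) - ∫ t in A..B, ∑ k ∈ range (2 * m), ((Y t : ℂ) * I) ^ k / (k ! : ℂ)‖ ≤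
      (B - A) * ((V / 4) ^ m / m !) + Er := by
    rw [← intervalIntegral.integral_sub]
    · have h1 : ‖∫ t in A..B, (cexp ((Y t : ℂ) * I) - ∑ k ∈ range (2 * m), ((Y t : ℂ) * I) ^ k / (k ! : ℂ))‖ ≤
          ∫ t in A..B, Y t ^ (2 * m) / (2 * m)! := by
        apply intervalIntegral.norm_integral_le_of_norm_le hAB
        · refine Filter.Eventually.of_forall fun t _ => ?_
          have := taylor (z := (Y t : ℂ) * I) (by simp) (2 * m)
          refine this.trans (le_of_eq ?_)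
          rw [norm_mul, Complex.norm_I, mul_one, Complex.norm_real, Real.norm_eq_abs, Even.pow_abs (even_two_mul m)]
        · exact (Continuous.intervalIntegrable (by fun_prop) _ _)
      refine h1.trans ?_
      rw [intervalIntegral.integral_div]
      have h2 := (abs_le.1 (hmom (2 * m) le_rfl)).2
      have hf : (0 : ℝ) < (2 * m)! := by exact_mod_cast Nat.factorial_pos _
      have hf1 : (1 : ℝ) ≤ (2 * m)! := by exact_mod_cast Nat.factorial_pos _
      rw [div_le_iff₀ hf]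
      have h3 : (B - A) * mu c X (2 * m) ≤ (B - A) * ((V / 4) ^ m / m !) * (2 * m)! := by
        rw [mul_assoc]
        apply mul_le_mul_of_nonneg_left _ hBA0
        unfold mu
        rw [if_pos (even_two_mul m), Nat.mul_div_cancel_left m (by norm_num)]
        have h4 := SS_le c X m
        rw [← hV] at h4
        have h5 : ((2 * m).choose m : ℝ) / 2 ^ (2 * m) * SS c X m ≤
            ((2 * m).choose m : ℝ) / 2 ^ (2 * m) * (m ! * V ^ m) := mul_le_mul_of_nonneg_left h4 (by positivity)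
        refine h5.trans (le_of_eq ?_)
        have h6 := Nat.choose_mul_factorial_mul_factorial (show m ≤ 2 * m by omega)
        rw [show 2 * m - m = m by omega] at h6
        have h7 : ((2 * m)! : ℝ) = ((2 * m).choose m : ℝ) * m ! * m ! := by exact_mod_cast h6.symm
        rw [h7, div_pow, show (2 : ℝ) ^ (2 * m) = 4 ^ m by rw [pow_mul]; norm_num]
        have hm0 : (m ! : ℝ) ≠ 0 := by exact_mod_cast m.factorial_ne_zero
        field_simp
      have h8 : Er ≤ Er * (2 * m)! := le_mul_of_one_le_right hEr0 hf1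
      nlinarith
    · exact Continuous.intervalIntegrable (by fun_prop) _ _
    · exact Continuous.intervalIntegrable (by fun_prop) _ _
  -- the polynomial part
  have hP : (∫ t in A..B, ∑ k ∈ range (2 * m), ((Y t : ℂ) * I) ^ k / (k ! : ℂ)) =
      ∑ k ∈ range (2 * m), (I ^ k / (k ! : ℂ)) * ((∫ t in A..B, Y t ^ k : ℝ) : ℂ) := by
    rw [intervalIntegral.integral_finsetSum (fun k _ => Continuous.intervalIntegrable (by fun_prop) _ _)]
    refine Finset.sum_congr rfl fun k _ => ?_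
    rw [← intervalIntegral.integral_ofReal, ← intervalIntegral.integral_const_mul]
    refine intervalIntegral.integral_congr fun t _ => ?_
    show ((Y t : ℂ) * I) ^ k / (k ! : ℂ) = I ^ k / (k ! : ℂ) * ((Y t ^ k : ℝ) : ℂ)
    rw [mul_pow]
    push_cast
    ring
  have hQ : ‖(∑ k ∈ range (2 * m), (I ^ k / (k ! : ℂ)) * ((∫ t in A..B, Y t ^ k : ℝ) : ℂ)) -
      ∑ k ∈ range (2 * m), (I ^ k / (k ! : ℂ)) * (((B - A) * mu c X k : ℝ) : ℂ)‖ ≤ 2 * m * Er := by
    rw [← Finset.sum_sub_distrib]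
    refine (norm_sum_le _ _).trans ?_
    have h1 : ∀ k ∈ range (2 * m), ‖(I ^ k / (k ! : ℂ)) * ((∫ t in A..B, Y t ^ k : ℝ) : ℂ) -
        (I ^ k / (k ! : ℂ)) * (((B - A) * mu c X k : ℝ) : ℂ)‖ ≤ Er := by
      intro k hk
      rw [Finset.mem_range] at hk
      rw [← mul_sub, ← Complex.ofReal_sub, norm_mul, norm_div, norm_pow, Complex.norm_I, one_pow, Complex.norm_natCast,
        Complex.norm_real, Real.norm_eq_abs]
      have h2 := hmom k hk.le
      have h3 : (1 : ℝ) ≤ k ! := by exact_mod_cast Nat.factorial_pos k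
      have h4 : 1 / (k ! : ℝ) ≤ 1 := by rw [div_le_one (by linarith)]; exact h3
      calc 1 / (k ! : ℝ) * |(∫ t in A..B, Y t ^ k) - (B - A) * mu c X k| ≤ 1 * Er :=
            mul_le_mul h4 h2 (abs_nonneg _) zero_le_one
        _ = Er := one_mul _
    refine (Finset.sum_le_sum h1).trans (le_of_eq ?_)
    rw [Finset.sum_const, Finset.card_range, nsmul_eq_mul]
    push_cast
    ring
  -- the main term
  have hR : (∑ k ∈ range (2 * m), (I ^ k / (k ! : ℂ)) * (((B - A) * mu c X k : ℝ) : ℂ)) =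
      (((B - A) * ∑ a ∈ range m, (-1) ^ a * (SS c X a / (4 ^ a * (a ! : ℝ) ^ 2)) : ℝ) : ℂ) := by
    have h1 : ∀ n : ℕ, (∑ k ∈ range (2 * n), (I ^ k / (k ! : ℂ)) * (((B - A) * mu c X k : ℝ) : ℂ)) =
        (((B - A) * ∑ a ∈ range n, (-1) ^ a * (SS c X a / (4 ^ a * (a ! : ℝ) ^ 2)) : ℝ) : ℂ) := by
      intro n
      induction n with
      | zero => simp
      | succ n ih =>
        rw [show 2 * (n + 1) = 2 * n + 1 + 1 by ring, Finset.sum_range_succ, Finset.sum_range_succ, ih,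
          Finset.sum_range_succ]
        have e1 : mu c X (2 * n + 1) = 0 := by
          unfold mu
          rw [if_neg]
          rw [Nat.not_even_iff_odd]
          exact odd_two_mul_add_one n
        have e2 : mu c X (2 * n) = ((2 * n).choose n : ℝ) / 4 ^ n * SS c X n := by
          unfold mu
          rw [if_pos (even_two_mul n), Nat.mul_div_cancel_left n (by norm_num), pow_mul]
          norm_num
        rw [e1, e2, mul_zero, Complex.ofReal_zero, mul_zero, add_zero]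
        have h6 := Nat.choose_mul_factorial_mul_factorial (show n ≤ 2 * n by omega)
        rw [show 2 * n - n = n by omega] at h6
        have h7 : ((2 * n)! : ℝ) = ((2 * n).choose n : ℝ) * n ! * n ! := by exact_mod_cast h6.symm
        have h8 : I ^ (2 * n) = (((-1 : ℝ) ^ n : ℝ) : ℂ) := by
          rw [pow_mul, Complex.I_sq]
          push_cast
          rfl
        have hn0 : (n ! : ℝ) ≠ 0 := by exact_mod_cast n.factorial_ne_zero
        have hc0 : ((2 * n).choose n : ℝ) ≠ 0 := by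
          exact_mod_cast (Nat.choose_pos (show n ≤ 2 * n by omega)).ne'
        have e3 : I ^ (2 * n) / ((2 * n)! : ℂ) * (((B - A) * (((2 * n).choose n : ℝ) / 4 ^ n * SS c X n) : ℝ) : ℂ) =
            (((B - A) * ((-1) ^ n * (SS c X n / (4 ^ n * (n ! : ℝ) ^ 2))) : ℝ) : ℂ) := by
          rw [h8, show ((2 * n)! : ℂ) = (((2 * n)! : ℝ) : ℂ) by push_cast; rfl, ← Complex.ofReal_div, ← Complex.ofReal_mul,
            h7]
          congr 1
          field_simp
        rw [e3, ← Complex.ofReal_add]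
        congr 1
        ring
    exact h1 m
  -- comparison with the exponential
  have hS : |∑ a ∈ range m, (-1) ^ a * (SS c X a / (4 ^ a * (a ! : ℝ) ^ 2))| ≤
      Real.exp (-(V / 4)) + (V / 4) ^ m / m ! + M * K1 := by
    have h1 : |Real.exp (-(V / 4)) - ∑ a ∈ range m, (-(V / 4)) ^ a / (a ! : ℝ)| ≤ (V / 4) ^ m / m ! := by
      have h2 := taylor (z := ((-(V / 4) : ℝ) : ℂ)) (by rw [Complex.ofReal_re]; linarith) m
      have h3 : cexp ((-(V / 4) : ℝ) : ℂ) - ∑ k ∈ range m, (((-(V / 4) : ℝ) : ℂ)) ^ k / (k ! : ℂ) =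
          ((Real.exp (-(V / 4)) - ∑ a ∈ range m, (-(V / 4)) ^ a / (a ! : ℝ) : ℝ) : ℂ) := by
        push_cast
        rfl
      rw [h3, Complex.norm_real, Complex.norm_real, Real.norm_eq_abs, Real.norm_eq_abs, abs_neg,
        abs_of_nonneg (by positivity : 0 ≤ V / 4)] at h2
      exact h2
    have h4 : |(∑ a ∈ range m, (-1) ^ a * (SS c X a / (4 ^ a * (a ! : ℝ) ^ 2))) - ∑ a ∈ range m, (-(V / 4)) ^ a / (a ! : ℝ)| ≤
        M * K1 := by
      rw [← Finset.sum_sub_distrib, hK1, Finset.mul_sum]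
      refine (Finset.abs_sum_le_sum_abs _ _).trans (Finset.sum_le_sum fun a _ => ?_)
      have h5 := hKf a c X M hM hc hW
      have h6 := SS_le c X a
      rw [← hV] at h5 h6
      have ha0 : (0 : ℝ) < a ! := by exact_mod_cast a.factorial_pos
      have ha1 : (1 : ℝ) ≤ a ! := by exact_mod_cast a.factorial_pos
      have e1 : (-1 : ℝ) ^ a * (SS c X a / (4 ^ a * (a ! : ℝ) ^ 2)) - (-(V / 4)) ^ a / (a ! : ℝ) =
          -((-1) ^ a * (((a ! : ℝ) * V ^ a - SS c X a) / (4 ^ a * (a ! : ℝ) ^ 2))) := by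
        rw [neg_pow (V / 4), div_pow]
        field_simp
        ring
      rw [e1, abs_neg, abs_mul, abs_pow, abs_neg, abs_one, one_pow, one_mul,
        abs_of_nonneg (div_nonneg (by linarith) (by positivity))]
      refine le_trans ?_ h5
      apply div_le_self (by linarith)
      have : (1 : ℝ) ≤ 4 ^ a := one_le_pow₀ (by norm_num)
      have h7 : (1 : ℝ) ≤ (a ! : ℝ) ^ 2 := one_le_pow₀ ha1
      nlinarith
    have h8 := abs_le.1 h1
    have h9 := abs_le.1 h4
    have h10 := Real.exp_pos (-(V / 4))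
    rw [abs_le]
    constructor <;> linarith [h8.1, h8.2, h9.1, h9.2]
  -- collect
  rw [hP] at hT1
  rw [hR] at hQ
  have e0 : (∫ t in A..B, cexp (((Gw c w X t).re : ℂ) * I)) = ∫ t in A..B, cexp ((Y t : ℂ) * I) := by rw [hY]
  rw [e0]
  have f1 : ‖(((B - A) * ∑ a ∈ range m, (-1) ^ a * (SS c X a / (4 ^ a * (a ! : ℝ) ^ 2)) : ℝ) : ℂ)‖ ≤
      (B - A) * (Real.exp (-(V / 4)) + (V / 4) ^ m / m ! + M * K1) := by
    rw [Complex.norm_real, Real.norm_eq_abs, abs_mul, abs_of_nonneg hBA0]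
    exact mul_le_mul_of_nonneg_left hS hBA0
  obtain ⟨x, hx⟩ : ∃ x : ℂ, x = ∫ t in A..B, cexp ((Y t : ℂ) * I) := ⟨_, rfl⟩
  obtain ⟨y, hy⟩ : ∃ y : ℂ, y = ∑ k ∈ range (2 * m), (I ^ k / (k ! : ℂ)) * ((∫ t in A..B, Y t ^ k : ℝ) : ℂ) := ⟨_, rfl⟩
  obtain ⟨z, hz⟩ : ∃ z : ℂ, z = (((B - A) * ∑ a ∈ range m, (-1) ^ a * (SS c X a / (4 ^ a * (a ! : ℝ) ^ 2)) : ℝ) : ℂ) :=
    ⟨_, rfl⟩
  rw [← hx, ← hy] at hT1
  rw [← hy, ← hz] at hQ
  rw [← hz] at f1
  rw [← hx, ← hV]
  have f2 : ‖x‖ ≤ ‖x - y‖ + ‖y - z‖ + ‖z‖ := by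
    calc ‖x‖ = ‖(x - y) + (y - z) + z‖ := by congr 1; ring
      _ ≤ ‖(x - y) + (y - z)‖ + ‖z‖ := norm_add_le _ _
      _ ≤ _ := by linarith [norm_add_le (x - y) (y - z)]
  have f3 : 0 ≤ (V / 4) ^ m / m ! := by positivity
  have f4 : (B - A) * ((V / 4) ^ m / m !) ≤ T * ((V / 4) ^ m / m !) := mul_le_mul_of_nonneg_right hBA f3
  have f5 : (B - A) * (Real.exp (-(V / 4)) + (V / 4) ^ m / m ! + M * K1) ≤
      T * (Real.exp (-(V / 4)) + (V / 4) ^ m / m ! + M * K1) :=
    mul_le_mul_of_nonneg_right hBA (by positivity)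
  have f6 : (2 * m + 1) * Er = 8 * K2 * (2 * m + 1) * (Real.sqrt T * (1 + Real.log T)) := by rw [hEr]; ring
  have f7 : 0 ≤ 8 * K2 * (2 * m + 1) * (M * T) := by positivity
  have f8 : 0 ≤ K1 * (Real.sqrt T * (1 + Real.log T)) := by positivity
  have f9 : ‖x‖ ≤ T * (Real.exp (-(V / 4)) + 2 * ((V / 4) ^ m / m !)) + T * (M * K1) + (2 * m + 1) * Er := by
    linarith
  rw [f6] at f9
  linarith

end Pool.Agent.X112.WE
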