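import Pool.Agent.X112.WE.A

/-! # Small ball probabilities -/

set_option autoImplicit false

namespace Pool.Agent.X112.WE

open MeasureTheory Complex Finset
open scoped ComplexConjugate Nat
open Pool.Agent.Y743.CL (Pr mem_Pr VS VS_nonneg G rc G_cont)
open Pool.Agent.X112.LF (CM Gw Gw_cont dc Dc wn wn_cm wn_norm ph ph_norm G_comb)

lemma cheb' (A B : ℝ) (hAB : A ≤ B) (f : ℝ → ℝ) (hf : Continuous f) (h0 : ∀ t, 0 ≤ f t) {η Q : ℝ}
    (hη : 0 < η) (hQ : ∫ t in A..B, f t ≤ Q) : volume.real (Set.Icc A B ∩ {t | η ≤ f t}) ≤ Q / η := by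
  have h1 := mul_meas_ge_le_integral_of_nonneg (μ := volume.restrict (Set.Icc A B)) (f := f)
    (Filter.Eventually.of_forall h0) hf.integrableOn_Icc η
  rw [measureReal_restrict_apply (measurableSet_le measurable_const hf.measurable), Set.inter_comm] at h1
  rw [intervalIntegral.integral_of_le hAB, ← integral_Icc_eq_integral_Ioc] at hQ
  rw [le_div_iff₀ hη]
  linarith

lemma phi_low (x : ℝ) : Real.exp (-(x ^ 2 / 5)) ≤ 3 / 4 + Real.cos x / 4 := by
  obtain ⟨v, hv⟩ : ∃ v : ℝ, v = x ^ 2 / 5 := ⟨_, rfl⟩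
  have hv0 : 0 ≤ v := by rw [hv]; positivity
  rw [← hv]
  rcases le_or_gt v (3 / 4) with h | h
  · have h1 := Real.one_sub_sq_div_two_le_cos (x := x)
    have h2 : Real.exp (-v) ≤ 1 - v + v ^ 2 / 2 := by
      rw [Real.exp_neg, inv_le_comm₀ (Real.exp_pos _) (by nlinarith)]
      refine le_trans ?_ (Real.quadratic_le_exp_of_nonneg hv0)
      rw [inv_le_iff_one_le_mul₀ (by nlinarith)]
      nlinarith [sq_nonneg (v ^ 2)]
    have h3 : x ^ 2 = 5 * v := by rw [hv]; ring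
    nlinarith
  · have h1 := Real.neg_one_le_cos x
    have h2 : Real.exp (-v) ≤ 1 / 2 := by
      have h3 : Real.exp (-v) ≤ Real.exp (-Real.log 2) := by
        apply Real.exp_le_exp.2
        have := Real.log_two_lt_d9
        linarith
      rw [Real.exp_neg, Real.exp_neg, Real.exp_log (by norm_num)] at h3
      rw [Real.exp_neg]
      linarith
    linarith

/-- the values of the random signs -/
def zv : Fin 3 → ℝ := ![0, 1, -1]

/-- their probabilities -/
noncomputable def zw : Fin 3 → ℝ := ![3 / 4, 1 / 8, 1 / 8]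

lemma zw_nonneg (e : Fin 3) : 0 ≤ zw e := by fin_cases e <;> norm_num [zw]

lemma zv_abs (e : Fin 3) : |zv e| ≤ 1 := by fin_cases e <;> simp [zv]

lemma zsum : ∑ e, zw e = 1 := by
  rw [Fin.sum_univ_three]
  simp [zw]
  norm_num

lemma zexp (x : ℝ) : ∑ e, (zw e : ℂ) * cexp (((zv e * x : ℝ) : ℂ) * I) = ((3 / 4 + Real.cos x / 4 : ℝ) : ℂ) := by
  rw [Fin.sum_univ_three]
  simp only [zw, zv, Matrix.cons_val_zero, Matrix.cons_val_one, Matrix.cons_val]
  have h1 : cexp (((1 * x : ℝ) : ℂ) * I) = Complex.cos x + Complex.sin x * I := by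
    rw [one_mul, Complex.exp_mul_I]
  have h2 : cexp (((-1 * x : ℝ) : ℂ) * I) = Complex.cos x - Complex.sin x * I := by
    rw [neg_one_mul, Complex.ofReal_neg, Complex.exp_mul_I, Complex.cos_neg, Complex.sin_neg]
    ring
  rw [h1, h2]
  push_cast
  simp
  ring

lemma zgauss (y : ℝ) : ∑ e, zw e * Real.exp (-(zv e ^ 2 * y)) = 3 / 4 + Real.exp (-y) / 4 := by
  rw [Fin.sum_univ_three]
  simp [zw, zv]
  ring

theorem small_ball (m : ℕ) (W0 : ℝ) (hW0 : 1 ≤ W0) : ∃ K : ℝ, 0 ≤ K ∧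
    ∀ (L r : ℕ) (u : Fin r → Fin L → ℝ) (l : ℝ) (h : Fin L → ℝ) (X : ℕ) (T A B M s R2 : ℝ) (μ ν : Fin r → ℝ),
    (∀ ζ : Fin r → ℝ, VS (dc l (fun j => ∑ k, ζ k * u k j) h) X = ∑ k, ζ k ^ 2 * μ k) →
    1 ≤ X → 1 ≤ T → A ≤ B → B - A ≤ T → ((X ^ (2 * m) : ℕ) : ℝ) ≤ Real.sqrt T → 0 ≤ M → 0 < s →
    (∀ ζ : Fin r → ℝ, (∀ k, |ζ k| ≤ 1) → ∀ p ∈ Pr X, dc l (fun j => ∑ k, (Real.sqrt s * ζ k) * u k j) h p ^ 2 ≤ M) →
    (∀ k, 0 ≤ ν k ∧ ν k ≤ μ k ∧ s * ν k ≤ 4) → s * ∑ k, μ k ≤ W0 →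
    volume.real {t | t ∈ Set.Icc A B ∧ ∑ k, (∑ j : Fin L, u k j * (G (rc l (h j)) X (t + h j / 2)).re) ^ 2 ≤ R2} ≤
      Real.exp (s * R2 / 5) * (T * (Real.exp (-(s / 32 * ∑ k, ν k)) + 2 * ((W0 / 4) ^ m / m !)) +
        K * (M * T + Real.sqrt T * (1 + Real.log T))) := by
  obtain ⟨K, hK, hcf⟩ := cf_bd m W0 hW0
  refine ⟨K, hK, fun L r u l h X T A B M s R2 μ ν hdiag hX hT hAB hBA hXT hM hs hMb hν hW => ?_⟩
  obtain ⟨Z, hZ⟩ : ∃ Z : Fin r → ℝ → ℝ, Z = fun k t => ∑ j : Fin L, u k j * (G (rc l (h j)) X (t + h j / 2)).re := ⟨_, rfl⟩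
  have hZc : ∀ k, Continuous (Z k) := by
    intro k
    rw [hZ]
    refine continuous_finsetSum _ fun j _ => continuous_const.mul ?_
    exact Complex.continuous_re.comp ((G_cont _ _).comp (by fun_prop))
  obtain ⟨Φ, hΦ⟩ : ∃ Φ : ℝ → ℝ, Φ = fun t => ∏ k, (3 / 4 + Real.cos (Real.sqrt s * Z k t) / 4) := ⟨_, rfl⟩
  have hΦc : Continuous Φ := by
    rw [hΦ]
    refine continuous_finsetProd _ fun k _ => ?_
    have := hZc k
    fun_prop
  have hΦ0 : ∀ t, 0 ≤ Φ t := by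
    intro t
    rw [hΦ]
    refine Finset.prod_nonneg fun k _ => ?_
    have := Real.neg_one_le_cos (Real.sqrt s * Z k t)
    linarith
  -- the set
  have hset : {t | t ∈ Set.Icc A B ∧ ∑ k, (∑ j : Fin L, u k j * (G (rc l (h j)) X (t + h j / 2)).re) ^ 2 ≤ R2} ⊆
      Set.Icc A B ∩ {t | Real.exp (-(s * R2 / 5)) ≤ Φ t} := by
    intro t ht
    refine ⟨ht.1, ?_⟩
    have h1 : ∑ k, Z k t ^ 2 ≤ R2 := by rw [hZ]; exact ht.2
    show Real.exp (-(s * R2 / 5)) ≤ Φ t
    have h2 : Real.exp (-(s * (∑ k, Z k t ^ 2) / 5)) ≤ Φ t := by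
      have e : -(s * (∑ k, Z k t ^ 2) / 5) = ∑ k, -((Real.sqrt s * Z k t) ^ 2 / 5) := by
        rw [Finset.sum_neg_distrib, ← Finset.sum_div, Finset.mul_sum]
        congr 2
        refine Finset.sum_congr rfl fun k _ => ?_
        rw [mul_pow, Real.sq_sqrt hs.le]
      rw [e, Real.exp_sum, hΦ]
      exact Finset.prod_le_prod (fun k _ => (Real.exp_pos _).le) fun k _ => phi_low _
    refine le_trans (Real.exp_le_exp.2 ?_) h2
    have := mul_le_mul_of_nonneg_left h1 hs.le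
    linarith
  -- the expansion
  have hexp : ∀ t, ((Φ t : ℝ) : ℂ) = ∑ ζ : Fin r → Fin 3, ((∏ k, zw (ζ k) : ℝ) : ℂ) *
      cexp (((∑ k, zv (ζ k) * (Real.sqrt s * Z k t) : ℝ) : ℂ) * I) := by
    intro t
    rw [hΦ]
    push_cast
    have e1 : ∀ k : Fin r, (3 / 4 + Complex.cos ((Real.sqrt s : ℂ) * (Z k t : ℂ)) / 4) =
        ∑ e, (zw e : ℂ) * cexp (((zv e * (Real.sqrt s * Z k t) : ℝ) : ℂ) * I) := by
      intro k
      rw [zexp]
      push_cast
      rfl
    simp only [e1]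
    rw [Finset.prod_univ_sum, Fintype.piFinset_univ]
    refine Finset.sum_congr rfl fun ζ _ => ?_
    rw [Finset.prod_mul_distrib, ← Complex.exp_sum, Finset.sum_mul]
    push_cast
    rfl
  have hlin : ∀ (ζ : Fin r → Fin 3) (t : ℝ), (∑ k, zv (ζ k) * (Real.sqrt s * Z k t)) =
      (Gw (dc l (fun j => ∑ k, (Real.sqrt s * zv (ζ k)) * u k j) h)
        (wn (ph l (fun j => ∑ k, (Real.sqrt s * zv (ζ k)) * u k j) h)) X t).re := by
    intro ζ t
    rw [← G_comb, Complex.re_sum]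
    have e1 : ∀ j : Fin L, (((∑ k, (Real.sqrt s * zv (ζ k)) * u k j : ℝ) : ℂ) * G (rc l (h j)) X (t + h j / 2)).re =
        ∑ k, (Real.sqrt s * zv (ζ k)) * (u k j * (G (rc l (h j)) X (t + h j / 2)).re) := by
      intro j
      rw [Complex.re_ofReal_mul, Finset.sum_mul]
      refine Finset.sum_congr rfl fun k _ => ?_
      ring
    simp only [e1]
    rw [Finset.sum_comm, hZ]
    refine Finset.sum_congr rfl fun k _ => ?_
    rw [← Finset.mul_sum]
    ring
  -- the integrals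
  have hVζ : ∀ ζ : Fin r → Fin 3, VS (dc l (fun j => ∑ k, (Real.sqrt s * zv (ζ k)) * u k j) h) X =
      ∑ k, zv (ζ k) ^ 2 * (s * μ k) := by
    intro ζ
    rw [hdiag]
    refine Finset.sum_congr rfl fun k _ => ?_
    rw [mul_pow, Real.sq_sqrt hs.le]
    ring
  have hμ0 : ∀ k, 0 ≤ μ k := fun k => (hν k).1.trans (hν k).2.1
  have hVle : ∀ ζ : Fin r → Fin 3, VS (dc l (fun j => ∑ k, (Real.sqrt s * zv (ζ k)) * u k j) h) X ≤ W0 := by
    intro ζ
    rw [hVζ]
    refine le_trans ?_ hW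
    rw [Finset.mul_sum]
    refine Finset.sum_le_sum fun k _ => ?_
    have h1 : zv (ζ k) ^ 2 ≤ 1 := by
      rw [← sq_abs]
      exact pow_le_one₀ (abs_nonneg _) (zv_abs _)
    exact mul_le_of_le_one_left (mul_nonneg hs.le (hμ0 k)) h1
  have hone : ∀ ζ : Fin r → Fin 3, ‖∫ t in A..B, cexp (((∑ k, zv (ζ k) * (Real.sqrt s * Z k t) : ℝ) : ℂ) * I)‖ ≤
      T * ((∏ k, Real.exp (-(zv (ζ k) ^ 2 * (s * μ k / 4)))) + 2 * ((W0 / 4) ^ m / m !)) +
      K * (M * T + Real.sqrt T * (1 + Real.log T)) := by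
    intro ζ
    simp only [hlin ζ]
    have h1 := hcf (dc l (fun j => ∑ k, (Real.sqrt s * zv (ζ k)) * u k j) h)
      (wn (ph l (fun j => ∑ k, (Real.sqrt s * zv (ζ k)) * u k j) h)) (wn_cm _)
      (fun n _ => wn_norm (fun p => ph_norm _ _ _ p) n) X T A B M hX hT hAB hBA hXT hM
      (hMb (fun k => zv (ζ k)) fun k => zv_abs _) (hVle ζ)
    refine h1.trans ?_
    have h2 : Real.exp (-(VS (dc l (fun j => ∑ k, (Real.sqrt s * zv (ζ k)) * u k j) h) X / 4)) =
        ∏ k, Real.exp (-(zv (ζ k) ^ 2 * (s * μ k / 4))) := by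
      rw [hVζ, ← Real.exp_sum, Finset.sum_neg_distrib, Finset.sum_div]
      congr 2
      refine Finset.sum_congr rfl fun k _ => ?_
      ring
    have h3 : (VS (dc l (fun j => ∑ k, (Real.sqrt s * zv (ζ k)) * u k j) h) X / 4) ^ m ≤ (W0 / 4) ^ m := by
      apply pow_le_pow_left₀ (by have := VS_nonneg (dc l (fun j => ∑ k, (Real.sqrt s * zv (ζ k)) * u k j) h) X; positivity)
      linarith [hVle ζ]
    have h4 : (VS (dc l (fun j => ∑ k, (Real.sqrt s * zv (ζ k)) * u k j) h) X / 4) ^ m / m ! ≤ (W0 / 4) ^ m / m ! :=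
      div_le_div_of_nonneg_right h3 (by positivity)
    rw [h2]
    have h5 : T * ((∏ k, Real.exp (-(zv (ζ k) ^ 2 * (s * μ k / 4)))) +
        2 * ((VS (dc l (fun j => ∑ k, (Real.sqrt s * zv (ζ k)) * u k j) h) X / 4) ^ m / m !)) ≤
        T * ((∏ k, Real.exp (-(zv (ζ k) ^ 2 * (s * μ k / 4)))) + 2 * ((W0 / 4) ^ m / m !)) := by
      apply mul_le_mul_of_nonneg_left _ (by linarith)
      linarith
    linarith
  have hint : (∫ t in A..B, Φ t) ≤ T * (Real.exp (-(s / 32 * ∑ k, ν k)) + 2 * ((W0 / 4) ^ m / m !)) +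
        K * (M * T + Real.sqrt T * (1 + Real.log T)) := by
    have h1 : ((∫ t in A..B, Φ t : ℝ) : ℂ) = ∑ ζ : Fin r → Fin 3, ((∏ k, zw (ζ k) : ℝ) : ℂ) *
        ∫ t in A..B, cexp (((∑ k, zv (ζ k) * (Real.sqrt s * Z k t) : ℝ) : ℂ) * I) := by
      rw [← intervalIntegral.integral_ofReal]
      simp only [hexp]
      rw [intervalIntegral.integral_finsetSum]
      · refine Finset.sum_congr rfl fun ζ _ => ?_
        rw [intervalIntegral.integral_const_mul]
      · intro ζ _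
        apply Continuous.intervalIntegrable
        refine continuous_const.mul (Complex.continuous_exp.comp ((Complex.continuous_ofReal.comp ?_).mul continuous_const))
        exact continuous_finsetSum _ fun k _ => continuous_const.mul (continuous_const.mul (hZc k))
    have h2 : (∫ t in A..B, Φ t) ≤ ‖((∫ t in A..B, Φ t : ℝ) : ℂ)‖ := by
      rw [Complex.norm_real]
      exact le_abs_self _
    refine h2.trans ?_
    rw [h1]
    refine (norm_sum_le _ _).trans ?_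
    have hw0 : ∀ ζ : Fin r → Fin 3, 0 ≤ ∏ k, zw (ζ k) := fun ζ => Finset.prod_nonneg fun k _ => zw_nonneg _
    have h3 : ∀ ζ ∈ (Finset.univ : Finset (Fin r → Fin 3)), ‖((∏ k, zw (ζ k) : ℝ) : ℂ) *
        ∫ t in A..B, cexp (((∑ k, zv (ζ k) * (Real.sqrt s * Z k t) : ℝ) : ℂ) * I)‖ ≤
        T * (∏ k, (zw (ζ k) * Real.exp (-(zv (ζ k) ^ 2 * (s * μ k / 4))))) + (∏ k, zw (ζ k)) *
          (T * (2 * ((W0 / 4) ^ m / m !)) + K * (M * T + Real.sqrt T * (1 + Real.log T))) := by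
      intro ζ _
      rw [norm_mul, Complex.norm_real, Real.norm_eq_abs, abs_of_nonneg (hw0 ζ), Finset.prod_mul_distrib]
      have := mul_le_mul_of_nonneg_left (hone ζ) (hw0 ζ)
      refine this.trans (le_of_eq ?_)
      ring
    refine (Finset.sum_le_sum h3).trans ?_
    rw [Finset.sum_add_distrib, ← Finset.mul_sum, ← Finset.sum_mul]
    have h4 : ∑ ζ : Fin r → Fin 3, ∏ k, zw (ζ k) = 1 := by
      have := (Finset.prod_univ_sum (fun _ : Fin r => (Finset.univ : Finset (Fin 3))) (fun _ e => zw e)).symm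
      rw [Fintype.piFinset_univ] at this
      rw [this, zsum]
      simp
    have h5 : ∑ ζ : Fin r → Fin 3, ∏ k, (zw (ζ k) * Real.exp (-(zv (ζ k) ^ 2 * (s * μ k / 4)))) ≤
        Real.exp (-(s / 32 * ∑ k, ν k)) := by
      have := (Finset.prod_univ_sum (fun _ : Fin r => (Finset.univ : Finset (Fin 3)))
        (fun k e => zw e * Real.exp (-(zv e ^ 2 * (s * μ k / 4))))).symm
      rw [Fintype.piFinset_univ] at this
      rw [this]
      have e1 : -(s / 32 * ∑ k, ν k) = ∑ k, -(s * ν k / 32) := by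
        rw [Finset.sum_neg_distrib, Finset.mul_sum]
        congr 1
        refine Finset.sum_congr rfl fun k _ => ?_
        ring
      rw [e1, Real.exp_sum]
      refine Finset.prod_le_prod (fun k _ => Finset.sum_nonneg fun e _ => mul_nonneg (zw_nonneg e) (Real.exp_pos _).le)
        fun k _ => ?_
      rw [zgauss]
      obtain ⟨b1, b2, b3⟩ := hν k
      obtain ⟨y, hy⟩ : ∃ y : ℝ, y = s * ν k / 4 := ⟨_, rfl⟩
      have hy0 : 0 ≤ y := by rw [hy]; positivity
      have hy1 : y ≤ 1 := by rw [hy]; linarith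
      have c1 : Real.exp (-(s * μ k / 4)) ≤ Real.exp (-y) := by
        apply Real.exp_le_exp.2
        rw [hy]
        have := mul_le_mul_of_nonneg_left b2 hs.le
        linarith
      have c2 : Real.exp (-y) ≤ 1 - y / 2 := by
        rw [Real.exp_neg, inv_le_comm₀ (Real.exp_pos _) (by linarith)]
        have h6 := Real.add_one_le_exp y
        refine le_trans ?_ h6
        rw [inv_le_iff_one_le_mul₀ (by linarith)]
        nlinarith
      have c3 : 1 - y / 8 ≤ Real.exp (-(y / 8)) := by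
        have := Real.add_one_le_exp (-(y / 8))
        linarith
      have c4 : -(s * ν k / 32) = -(y / 8) := by rw [hy]; ring
      rw [c4]
      linarith
    rw [h4, one_mul]
    have h6 := mul_le_mul_of_nonneg_left h5 (by linarith : 0 ≤ T)
    linarith
  -- Chebyshev
  have hch := cheb' A B hAB Φ hΦc hΦ0 (Real.exp_pos (-(s * R2 / 5))) hint
  refine (measureReal_mono hset (ne_top_of_le_ne_top
      (by rw [Real.volume_Icc]; exact ENNReal.ofReal_ne_top : volume (Set.Icc A B) ≠ ⊤)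
      (measure_mono Set.inter_subset_left))).trans (hch.trans (le_of_eq ?_))
  have e9 : Real.exp (-(s * R2 / 5)) = (Real.exp (s * R2 / 5))⁻¹ := Real.exp_neg _
  rw [e9, div_inv_eq_mul, mul_comm]

end Pool.Agent.X112.WE
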