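import Pool.Agent.X112.WD.Fs
import Pool.Agent.X112.WE.B
import Mathlib.Analysis.InnerProductSpace.Spectrum

/-! # Bases which diagonalise the variance -/

set_option autoImplicit false

namespace Pool.Agent.X112.WE

open Module
open Pool.Agent.Y743.CL (Pr mem_Pr VS rc)
open Pool.Agent.X112.LF (dc Dc Dc_eq)
open Pool.Agent.X112.SD (wk)
open Pool.Agent.X112.WD (Fam inner_E)

theorem diag_basis {U : Type*} [NormedAddCommGroup U] [InnerProductSpace ℝ U] [FiniteDimensional ℝ U] {ι : Type*}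
    (S : Finset ι) (a : ι → U) {n : ℕ} (hn : finrank ℝ U = n) :
    ∃ b : OrthonormalBasis (Fin n) ℝ U, ∀ k l, k ≠ l → ∑ i ∈ S, inner ℝ (a i) (b k) * inner ℝ (a i) (b l) = 0 := by
  obtain ⟨T, hT⟩ : ∃ T : U →ₗ[ℝ] U, ∀ x, T x = ∑ i ∈ S, inner ℝ (a i) x • a i :=
    ⟨{ toFun := fun x => ∑ i ∈ S, inner ℝ (a i) x • a i
       map_add' := fun x y => by
        rw [← Finset.sum_add_distrib]
        refine Finset.sum_congr rfl fun i _ => ?_
        rw [inner_add_right, add_smul]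
       map_smul' := fun c x => by
        rw [RingHom.id_apply, Finset.smul_sum]
        refine Finset.sum_congr rfl fun i _ => ?_
        rw [inner_smul_right, mul_smul] }, fun x => rfl⟩
  have hin : ∀ x y, inner ℝ (T x) y = ∑ i ∈ S, inner ℝ (a i) x * inner ℝ (a i) y := by
    intro x y
    rw [hT, sum_inner]
    refine Finset.sum_congr rfl fun i _ => ?_
    rw [inner_smul_left]
    simp
  have hs : T.IsSymmetric := by
    intro x y
    rw [hin, real_inner_comm, hin]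
    refine Finset.sum_congr rfl fun i _ => ?_
    ring
  refine ⟨hs.eigenvectorBasis hn, fun k l hkl => ?_⟩
  rw [← hin, hs.apply_eigenvectorBasis hn k, inner_smul_left]
  have := (orthonormal_iff_ite.1 (hs.eigenvectorBasis hn).orthonormal) k l
  rw [if_neg hkl] at this
  rw [this, mul_zero]

theorem fam_diag (L : ℕ) (V : Submodule ℝ (Fin L → ℝ)) (p : Fin L → ℝ) {ι : Type*} (S : Finset ι) (x : ι → Fin L → ℝ) :
    ∃ (r s : ℕ) (u : Fin r → Fin L → ℝ) (w : Fin s → Fin L → ℝ), Fam u w ∧ s ≤ finrank ℝ V + 3 ∧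
      (∀ k, ∑ j, u k j * ((j : ℕ) : ℝ) = 0) ∧ (∀ k, ∀ v ∈ V, ∑ j, u k j * v j = 0) ∧
      (∀ k, ∑ j, u k j * p j = 0) ∧
      ∀ k l, k ≠ l → ∑ i ∈ S, (∑ j, u k j * x i j) * (∑ j, u l j * x i j) = 0 := by
  obtain ⟨e, he⟩ : ∃ e : (Fin L → ℝ) ≃ₗ[ℝ] EuclideanSpace ℝ (Fin L), e = (WithLp.linearEquiv 2 ℝ (Fin L → ℝ)).symm :=
    ⟨_, rfl⟩
  have hev : ∀ x : Fin L → ℝ, ∀ j, e x j = x j := by
    intro x j
    rw [he]
    rfl
  obtain ⟨q, hq⟩ : ∃ q : Fin 3 → EuclideanSpace ℝ (Fin L),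
      q = ![e p, e (fun _ => 1), e (fun j => ((j : ℕ) : ℝ))] := ⟨_, rfl⟩
  obtain ⟨K, hK⟩ : ∃ K : Submodule ℝ (EuclideanSpace ℝ (Fin L)),
      K = V.map (e : (Fin L → ℝ) →ₗ[ℝ] EuclideanSpace ℝ (Fin L)) ⊔ Submodule.span ℝ (Set.range q) := ⟨_, rfl⟩
  have hq' : ∀ i, q i ∈ K := by
    intro i
    rw [hK]
    exact Submodule.mem_sup_right (Submodule.subset_span ⟨i, rfl⟩)
  have hV : ∀ v ∈ V, e v ∈ K := by
    intro v hv
    rw [hK]
    exact Submodule.mem_sup_left (Submodule.mem_map_of_mem hv)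
  have h0 : e p ∈ K := by have := hq' 0; rw [hq] at this; simpa using this
  have h1 : e (fun _ => 1) ∈ K := by have := hq' 1; rw [hq] at this; simpa using this
  have h2 : e (fun j => ((j : ℕ) : ℝ)) ∈ K := by have := hq' 2; rw [hq] at this; simpa using this
  obtain ⟨b, hb⟩ : ∃ b : OrthonormalBasis (Fin (finrank ℝ K)) ℝ K, b = stdOrthonormalBasis ℝ K := ⟨_, rfl⟩
  obtain ⟨c, hc⟩ := diag_basis (U := Kᗮ) S (fun i => Kᗮ.orthogonalProjectionOnto (e (x i))) rfl
  have hci : ∀ i k, inner ℝ (Kᗮ.orthogonalProjectionOnto (e (x i))) (c k) =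
      ∑ j, (c k : EuclideanSpace ℝ (Fin L)) j * x i j := by
    intro i k
    rw [real_inner_comm]
    have h3 := Submodule.inner_orthogonalProjectionOnto_eq_of_mem_left (c k) (e (x i))
    rw [h3, inner_E]
    refine Finset.sum_congr rfl fun j _ => ?_
    rw [hev]
  have hort : ∀ k, ∀ x ∈ K, ∑ j, (c k : EuclideanSpace ℝ (Fin L)) j * x j = 0 := by
    intro k x hx
    rw [← inner_E]
    have := (Submodule.mem_orthogonal K _).1 (c k).2 x hx
    rw [real_inner_comm]
    exact this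
  have hpyth : ∀ x : EuclideanSpace ℝ (Fin L), ∑ k, (inner ℝ (c k : EuclideanSpace ℝ (Fin L)) x) ^ 2 +
      ∑ l, (inner ℝ (b l : EuclideanSpace ℝ (Fin L)) x) ^ 2 = ‖x‖ ^ 2 := by
    intro x
    have e1 : ∀ (S : Submodule ℝ (EuclideanSpace ℝ (Fin L))) (n : ℕ) (b : OrthonormalBasis (Fin n) ℝ S),
        ∑ l, (inner ℝ (b l : EuclideanSpace ℝ (Fin L)) x) ^ 2 = ‖S.orthogonalProjectionOnto x‖ ^ 2 := by
      intro S n b
      rw [← b.sum_sq_norm_inner_right (S.orthogonalProjectionOnto x)]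
      refine Finset.sum_congr rfl fun l _ => ?_
      rw [Real.norm_eq_abs, sq_abs]
      congr 1
      exact (Submodule.inner_orthogonalProjectionOnto_eq_of_mem_left (b l) x).symm
    rw [e1 Kᗮ _ c, e1 K _ b, add_comm]
    exact (K.norm_sq_eq_add_norm_sq_projection x).symm
  refine ⟨_, _, fun k j => (c k : EuclideanSpace ℝ (Fin L)) j, fun l j => (b l : EuclideanSpace ℝ (Fin L)) j,
    ⟨?_, ?_, ?_, ?_⟩, ?_, ?_, ?_, ?_, ?_⟩
  · intro k k'
    rw [← inner_E]
    have := (orthonormal_iff_ite.1 c.orthonormal) k k'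
    exact this
  · intro l
    have h2 := inner_E (b l : EuclideanSpace ℝ (Fin L)) (b l : EuclideanSpace ℝ (Fin L))
    have h3 := (orthonormal_iff_ite.1 b.orthonormal) l l
    rw [if_pos rfl] at h3
    have h4 : inner ℝ (b l : EuclideanSpace ℝ (Fin L)) (b l : EuclideanSpace ℝ (Fin L)) = 1 := h3
    rw [h4] at h2
    rw [h2]
    refine Finset.sum_congr rfl fun j _ => ?_
    ring
  · intro x
    have h2 := hpyth (WithLp.toLp 2 x)
    simp only [inner_E] at h2
    rw [EuclideanSpace.norm_sq_eq] at h2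
    simpa [sq_abs] using h2
  · intro k
    have := hort k _ h1
    simpa [hev] using this
  · rw [hK]
    refine (Submodule.finrank_add_le_finrank_add_finrank _ _).trans ?_
    refine Nat.add_le_add (Submodule.finrank_map_le _ _) ?_
    exact (finrank_range_le_card q).trans (by simp)
  · intro k
    have := hort k _ h2
    simpa [hev] using this
  · intro k v hv
    have := hort k _ (hV v hv)
    simpa [hev] using this
  · intro k
    have := hort k _ h0
    simpa [hev] using this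
  · intro k l hkl
    have := hc k l hkl
    simp only [hci] at this
    exact this

/-- the two linear forms at a prime -/
noncomputable def xf {L : ℕ} (l : ℝ) (h : Fin L → ℝ) (q : ℕ × Bool) (j : Fin L) : ℝ :=
  if q.2 then wk l q.1 * (Real.sin (h j / 2 * Real.log q.1) * Real.cos (h j / 2 * Real.log q.1))
  else wk l q.1 * Real.sin (h j / 2 * Real.log q.1) ^ 2

lemma dc_xf {L : ℕ} (l : ℝ) (a h : Fin L → ℝ) (p : ℕ) (hp : p ≠ 0) :
    dc l a h p ^ 2 = (∑ j, a j * xf l h (p, true) j) ^ 2 + (∑ j, a j * xf l h (p, false) j) ^ 2 := by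
  have e : ∀ u v : ℝ, Complex.normSq ((u : ℂ) - (v : ℂ) * Complex.I) = u ^ 2 + v ^ 2 := by
    intro u v
    rw [Complex.normSq_apply]
    simp
    ring
  unfold dc
  rw [Dc_eq l a h p hp, ← Complex.normSq_eq_norm_sq, e]
  unfold xf
  simp only [if_true]
  congr 2
  · rw [Finset.mul_sum]
    refine Finset.sum_congr rfl fun j _ => ?_
    ring
  · rw [Finset.mul_sum]
    refine Finset.sum_congr rfl fun j _ => ?_
    simp
    ring

lemma VS_xf {L : ℕ} (l : ℝ) (a h : Fin L → ℝ) (X : ℕ) :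
    VS (dc l a h) X = ∑ q ∈ Pr X ×ˢ (Finset.univ : Finset Bool), (∑ j, a j * xf l h q j) ^ 2 := by
  unfold VS
  rw [Finset.sum_product]
  refine Finset.sum_congr rfl fun p hp => ?_
  rw [dc_xf l a h p (mem_Pr.1 hp).1.ne_zero, Fintype.sum_bool]

/-- the variance is diagonal in the basis -/
lemma VS_diag {L r : ℕ} (l : ℝ) (h : Fin L → ℝ) (X : ℕ) (u : Fin r → Fin L → ℝ)
    (hd : ∀ k k', k ≠ k' → ∑ q ∈ Pr X ×ˢ (Finset.univ : Finset Bool), (∑ j, u k j * xf l h q j) *
      (∑ j, u k' j * xf l h q j) = 0) (ζ : Fin r → ℝ) :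
    VS (dc l (fun j => ∑ k, ζ k * u k j) h) X = ∑ k, ζ k ^ 2 * VS (dc l (u k) h) X := by
  rw [VS_xf]
  simp only [VS_xf l (u _)]
  have e1 : ∀ q, (∑ j, (∑ k, ζ k * u k j) * xf l h q j) ^ 2 =
      ∑ k, ∑ k', ζ k * ζ k' * ((∑ j, u k j * xf l h q j) * (∑ j, u k' j * xf l h q j)) := by
    intro q
    have e2 : ∑ j, (∑ k, ζ k * u k j) * xf l h q j = ∑ k, ζ k * ∑ j, u k j * xf l h q j := by
      simp only [Finset.sum_mul, Finset.mul_sum]
      rw [Finset.sum_comm]
      refine Finset.sum_congr rfl fun k _ => Finset.sum_congr rfl fun j _ => ?_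
      ring
    rw [e2, sq, Finset.sum_mul_sum]
    refine Finset.sum_congr rfl fun k _ => Finset.sum_congr rfl fun k' _ => ?_
    ring
  simp only [e1]
  rw [Finset.sum_comm]
  refine Finset.sum_congr rfl fun k _ => ?_
  rw [Finset.sum_comm]
  rw [Finset.sum_eq_single k]
  · rw [Finset.mul_sum]
    refine Finset.sum_congr rfl fun q _ => ?_
    ring
  · intro k' _ hk
    rw [← Finset.mul_sum, hd k k' hk.symm, mul_zero]
  · intro h
    exact absurd (Finset.mem_univ _) h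

end Pool.Agent.X112.WE
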