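import Pool.Agent.X112.WE.C
import Pool.Agent.X112.WD.Po5

/-! # Moments with shorter polynomials, traces -/

set_option autoImplicit false

namespace Pool.Agent.X112.WE

open MeasureTheory Filter Topology
open SG (ord NZ)
open Pool.Agent.Y743.CL (Pr mem_Pr rc XK G er VS VS_nonneg comb)
open Pool.Agent.Y743.NC (dev dev_nonneg dev_int var_le)
open Pool.Agent.X112.SD (wk rc_wk)
open Pool.Agent.X112.LF (dc Dc)
open Pool.Agent.X112.WD (Df Df_dev Df_meas Df_int bdd_int Df_bdd rc_sin G_mom X_small vs_all mert high wk_sq Dc_tr Tr Tr_real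
  Tr_lip Tr_zero th Fam par_tr ex_norm ex)

/-- the polynomial over the primes up to `T ^ κ` which belongs to the position `y` -/
noncomputable def gk (lam κ T : ℝ) (y : ℕ) (t : ℝ) : ℂ :=
  G (rc (Real.log T / lam) (2 * Real.pi * y / Real.log T)) (XK κ T) (t + 2 * Real.pi * y / Real.log T / 2)

/-- the error -/
noncomputable def Ek (lam κ T : ℝ) (y : ℕ) (t : ℝ) : ℝ := Df T y t + (gk lam κ T y t).re

lemma Ek_er (lam κ T : ℝ) (y : ℕ) (t : ℝ) : Ek lam κ T y t = er lam κ T y t := by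
  unfold Ek er Df gk
  rw [show t + (y : ℝ) * (2 * Real.pi / Real.log T) = t + 2 * Real.pi * y / Real.log T by ring]

lemma gk_cont (lam κ T : ℝ) (y : ℕ) : Continuous (gk lam κ T y) := (Pool.Agent.Y743.CL.G_cont _ _).comp (by fun_prop)

lemma Ek_meas (lam κ T : ℝ) (y : ℕ) : Measurable (Ek lam κ T y) :=
  (Df_meas T y).add (Complex.continuous_re.comp (gk_cont lam κ T y)).measurable

lemma Ek_int {T : ℝ} (hT : 1 < T) (lam κ : ℝ) (y : ℕ) (A B : ℝ) :
    IntegrableOn (fun t => Ek lam κ T y t ^ 2) (Set.Icc A B) := by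
  obtain ⟨M1, h1⟩ := Df_bdd hT y A B
  obtain ⟨M2, h2⟩ := isCompact_Icc.exists_bound_of_continuousOn (gk_cont lam κ T y).continuousOn (s := Set.Icc A B)
  refine bdd_int ((Ek_meas lam κ T y).pow_const 2) A B ((M1 + M2) ^ 2) fun t ht => ?_
  rw [abs_pow]
  refine pow_le_pow_left₀ (abs_nonneg _) ?_ 2
  unfold Ek
  refine (abs_add_le _ _).trans (add_le_add (h1 t ht) ?_)
  exact (Complex.abs_re_le_norm _).trans (h2 t ht)

lemma XK_mono {κ κ' T : ℝ} (h : κ ≤ κ') (hT : 1 ≤ T) : XK κ T ≤ XK κ' T := by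
  unfold XK
  exact Nat.floor_le_floor (Real.rpow_le_rpow_of_exponent_le hT h)

lemma VS_mono (c : ℕ → ℝ) {X Y : ℕ} (h : X ≤ Y) : VS c X ≤ VS c Y := by
  unfold VS
  refine Finset.sum_le_sum_of_subset_of_nonneg ?_ fun _ _ _ => sq_nonneg _
  intro p hp
  rw [mem_Pr] at hp ⊢
  exact ⟨hp.1, hp.2.trans h⟩

theorem moments_k : ∃ lam C T0 : ℝ, 16 ≤ lam ∧ 1 ≤ C ∧ 10 ≤ T0 ∧
    (∀ T : ℝ, T0 ≤ T → ∀ κ : ℝ, 0 < κ → κ ≤ 1 / 16 → 8 ≤ κ * Real.log T → ∀ a : ℝ, lam ≤ a →
      a * Real.log a ≤ Real.log T →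
      |VS (rc (Real.log T / lam) (2 * Real.pi * a / Real.log T)) (XK κ T) -
        2 / Real.pi ^ 2 * Real.log a| ≤ C * (1 + Real.log (1 / κ))) ∧
    ∀ K : ℕ, ∃ T1 : ℝ, 10 ≤ T1 ∧ ∀ T : ℝ, T1 ≤ T → ∀ κ : ℝ, 0 < κ → κ ≤ 1 / 16 → 8 ≤ κ * Real.log T →
      ∀ y : ℕ, y ≤ K →
      (∫ t in Set.Icc (T + Real.log T) (2 * T - Real.log T - 7), Ek lam κ T y t ^ 2 ≤
        C * (1 + Real.log (1 / κ)) * T) ∧
      VS (rc (Real.log T / lam) (2 * Real.pi * y / Real.log T)) (XK κ T) ≤ C * (1 + Real.log (1 + y)) := by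
  obtain ⟨lam, C1, T1, hlam, hC1, hT1, hcomb⟩ := comb 1 le_rfl
  obtain ⟨C2, T2, hC2, hT2, hvar⟩ := var_le
  have hlog16 : 0 ≤ Real.log 16 := Real.log_nonneg (by norm_num)
  obtain ⟨T3, hT3⟩ := (Real.tendsto_log_atTop.eventually_ge_atTop (128 : ℝ)).exists_forall_of_atTop
  have hVS : ∀ T : ℝ, max T1 T3 ≤ T → ∀ a : ℝ, lam ≤ a → a * Real.log a ≤ Real.log T →
      |VS (rc (Real.log T / lam) (2 * Real.pi * a / Real.log T)) (XK (1 / 16) T) -
        2 / Real.pi ^ 2 * Real.log a| ≤ C1 * (1 + Real.log 16) := by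
    intro T hT a ha haT
    have g1 := hT3 T ((le_max_right _ _).trans hT)
    obtain ⟨-, -, h3⟩ := hcomb T ((le_max_left _ _).trans hT) a ha (by linarith) (1 / 16) (by norm_num) (by norm_num)
      (by linarith)
    rwa [show (1 : ℝ) / (1 / 16) = 16 by norm_num] at h3
  obtain ⟨C3, hC3, hvs⟩ := vs_all lam _ _ hlam hVS
  obtain ⟨N, hN⟩ : ∃ N : ℕ, N = ⌈lam⌉₊ := ⟨_, rfl⟩
  have hNl : lam ≤ N := by rw [hN]; exact Nat.le_ceil _
  have hN1 : (16 : ℝ) ≤ N := by linarith
  have hlN : 0 ≤ Real.log (1 + N) := Real.log_nonneg (by linarith)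
  obtain ⟨C, hCd⟩ : ∃ C : ℝ, C = C1 + 2 * (C2 + Real.log (1 + N)) + 34 * (C3 * (1 + Real.log (1 + N))) + C3 := ⟨_, rfl⟩
  have hx1 : 0 ≤ 34 * (C3 * (1 + Real.log (1 + N))) := by positivity
  have hCC1 : C1 ≤ C := by rw [hCd]; linarith
  have hCC3 : C3 ≤ C := by rw [hCd]; linarith
  have hC1' : 1 ≤ C := by rw [hCd]; linarith
  refine ⟨lam, C, max T1 T3, hlam, hC1', hT1.trans (le_max_left _ _), ?_, ?_⟩
  · intro T hT κ hκ hκ16 hκT a ha haT
    obtain ⟨-, -, h3⟩ := hcomb T ((le_max_left _ _).trans hT) a ha (by linarith) κ hκ (by linarith) hκT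
    refine h3.trans (mul_le_mul_of_nonneg_right hCC1 ?_)
    have : 0 ≤ Real.log (1 / κ) := Real.log_nonneg (by rw [le_div_iff₀ hκ]; linarith)
    linarith
  intro K
  obtain ⟨T4, hT4⟩ := hvs K
  have hev : ∀ᶠ T : ℝ in atTop, 2 * Real.log T + 7 ≤ T / 2 := by
    have h1 : (fun T : ℝ => 2 * Real.log T + 7) =o[atTop] fun T : ℝ => T :=
      (Real.isLittleO_log_id_atTop.const_mul_left 2).add (Asymptotics.isLittleO_const_id_atTop _)
    have h2 := h1.bound (c := 1 / 2) (by norm_num)
    filter_upwards [h2, eventually_ge_atTop 1] with T hT hT1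
    rw [Real.norm_of_nonneg (by linarith : (0 : ℝ) ≤ T)] at hT
    have := (le_abs_self _).trans hT
    linarith
  obtain ⟨T5, hT5⟩ := (hev.and ((Real.tendsto_log_atTop.eventually_ge_atTop
    (((K : ℝ) + N) * Real.log (K + N))))).exists_forall_of_atTop
  refine ⟨max (max (max T1 T2) (max T3 T4)) T5,
    hT1.trans ((le_max_left _ _).trans ((le_max_left _ _).trans (le_max_left _ _))), fun T hT κ hκ hκ16 hκT y hy => ?_⟩
  have hTT1 : T1 ≤ T := (((le_max_left _ _).trans (le_max_left _ _)).trans (le_max_left _ _)).trans hT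
  have hTT2 : T2 ≤ T := (((le_max_right _ _).trans (le_max_left _ _)).trans (le_max_left _ _)).trans hT
  have hTT4 : T4 ≤ T := (((le_max_right _ _).trans (le_max_right _ _)).trans (le_max_left _ _)).trans hT
  obtain ⟨g1, g2⟩ := hT5 T ((le_max_right _ _).trans hT)
  have hT10 : 10 ≤ T := hT1.trans hTT1
  have hlT : 0 ≤ Real.log T := Real.log_nonneg (by linarith)
  have hy' : (y : ℝ) ≤ K := by exact_mod_cast hy
  have hy0 : (0 : ℝ) ≤ y := Nat.cast_nonneg y
  have hK0 : (0 : ℝ) ≤ K := Nat.cast_nonneg K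
  have hly : 0 ≤ Real.log (1 + y) := Real.log_nonneg (by linarith)
  have hlκ : 0 ≤ Real.log (1 / κ) := Real.log_nonneg (by rw [le_div_iff₀ hκ]; linarith)
  have hmono : ∀ a : ℝ, 1 ≤ a → a ≤ K + N → a * Real.log a ≤ Real.log T := by
    intro a ha haK
    refine le_trans ?_ g2
    exact mul_le_mul haK (Real.log_le_log (by linarith) haK) (Real.log_nonneg (by linarith)) (by linarith)
  have hAB : T + Real.log T ≤ 2 * T - Real.log T - 7 := by linarith
  have hBA : 2 * T - Real.log T - 7 - (T + Real.log T) ≤ T := by linarith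
  have v1 := hT4 T hTT4 y hy
  have vm := VS_mono (rc (Real.log T / lam) (2 * Real.pi * y / Real.log T)) (XK_mono hκ16 (by linarith : 1 ≤ T))
  refine ⟨?_, ?_⟩
  · rcases le_or_gt lam (y : ℝ) with hyl | hyl
    · obtain ⟨-, h2, -⟩ := hcomb T hTT1 y hyl (by rw [one_mul]; exact hmono _ (by linarith) (by linarith)) κ
        hκ (by linarith) hκT
      rw [integral_Icc_eq_integral_Ioc, ← intervalIntegral.integral_of_le hAB]
      simp only [Ek_er]
      refine h2.trans ?_
      apply mul_le_mul_of_nonneg_right _ (by linarith)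
      exact mul_le_mul_of_nonneg_right hCC1 (by linarith)
    · -- small positions
      have hyN : (y : ℝ) ≤ N := by linarith
      have hd : ∫ t in Set.Icc (T + Real.log T) (2 * T - Real.log T - 7), Df T y t ^ 2 ≤
          T * (C2 + Real.log (1 + N)) := by
        rcases Nat.eq_zero_or_pos y with h0 | h0
        · have e0 : ∀ t, Df T y t ^ 2 = 0 := by
            intro t
            rw [h0]
            unfold Df
            simp
          simp only [e0]
          rw [integral_zero]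
          positivity
        · have h1 : (1 : ℝ) ≤ y := by exact_mod_cast h0
          simp only [Df_dev]
          have h2 := hvar T hTT2 y (by linarith) (hmono _ h1 (by linarith))
          refine le_trans (setIntegral_mono_set (dev_int T y T (2 * T)) (ae_of_all _ fun t => dev_nonneg _ _ _) ?_)
            (h2.trans ?_)
          · exact (Set.Icc_subset_Icc (by linarith) (by linarith)).eventuallyLE
          · apply mul_le_mul_of_nonneg_left _ (by linarith)
            have := Real.log_le_log (by linarith : (0 : ℝ) < 1 + y) (by linarith : (1 : ℝ) + y ≤ 1 + N)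
            linarith
      have hT1' : 1 < T := by linarith
      have i1 : IntegrableOn (fun t => Df T y t ^ 2) (Set.Icc (T + Real.log T) (2 * T - Real.log T - 7)) := by
        have := Df_int hT1' y 0 (T + Real.log T) (2 * T - Real.log T - 7)
        have e0 : ∀ t, Df T 0 t = 0 := by intro t; unfold Df; simp
        simpa only [e0, sub_zero] using this
      have i2 : IntegrableOn (fun t => ‖gk lam κ T y t‖ ^ 2) (Set.Icc (T + Real.log T) (2 * T - Real.log T - 7)) :=
        ((gk_cont lam κ T y).norm.pow 2).integrableOn_Icc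
      have hX1 : 1 ≤ XK κ T := by
        unfold XK
        apply Nat.le_floor
        push_cast
        exact Real.one_le_rpow (by linarith) hκ.le
      have m2 : ∫ t in Set.Icc (T + Real.log T) (2 * T - Real.log T - 7), ‖gk lam κ T y t‖ ^ 2 ≤
          17 * T * VS (rc (Real.log T / lam) (2 * Real.pi * y / Real.log T)) (XK κ T) := by
        obtain ⟨-, -, h3, -⟩ := X_small (by linarith : 1 ≤ T)
        have hk : ((XK κ T ^ (1 + 1) : ℕ) : ℝ) ≤ Real.sqrt T := by
          refine le_trans ?_ h3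
          exact_mod_cast Nat.pow_le_pow_left (XK_mono hκ16 (by linarith : 1 ≤ T)) 2
        have e1 := G_mom (rc (Real.log T / lam) (2 * Real.pi * y / Real.log T)) (XK κ T) hX1 T
          (T + Real.log T + 2 * Real.pi * y / Real.log T / 2) (2 * T - Real.log T - 7 + 2 * Real.pi * y / Real.log T / 2)
          (by linarith) (by linarith) (by linarith) 1 hk
        rw [← intervalIntegral.integral_comp_add_right
          (fun t => ‖G (rc (Real.log T / lam) (2 * Real.pi * y / Real.log T)) (XK κ T) t‖ ^ (2 * 1))] at e1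
        rw [integral_Icc_eq_integral_Ioc, ← intervalIntegral.integral_of_le hAB]
        norm_num at e1
        exact e1
      have hle : ∫ t in Set.Icc (T + Real.log T) (2 * T - Real.log T - 7), Ek lam κ T y t ^ 2 ≤
          ∫ t in Set.Icc (T + Real.log T) (2 * T - Real.log T - 7), (2 * Df T y t ^ 2 + 2 * ‖gk lam κ T y t‖ ^ 2) := by
        refine integral_mono (Ek_int hT1' lam κ y _ _) ((i1.const_mul 2).add (i2.const_mul 2)) fun t => ?_
        simp only
        unfold Ek
        have h1 := Complex.abs_re_le_norm (gk lam κ T y t)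
        have h2 : (gk lam κ T y t).re ^ 2 ≤ ‖gk lam κ T y t‖ ^ 2 := by
          rw [← sq_abs]
          exact pow_le_pow_left₀ (abs_nonneg _) h1 2
        nlinarith [sq_nonneg (Df T y t - (gk lam κ T y t).re)]
      rw [integral_add (i1.const_mul 2) (i2.const_mul 2), integral_const_mul, integral_const_mul] at hle
      have hlyN : Real.log (1 + y) ≤ Real.log (1 + N) := Real.log_le_log (by linarith) (by linarith)
      have m2' : ∫ t in Set.Icc (T + Real.log T) (2 * T - Real.log T - 7), ‖gk lam κ T y t‖ ^ 2 ≤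
          17 * T * (C3 * (1 + Real.log (1 + N))) := by
        refine m2.trans (mul_le_mul_of_nonneg_left (vm.trans (v1.trans ?_)) (by linarith))
        exact mul_le_mul_of_nonneg_left (by linarith) (by linarith)
      have hC1T : 0 ≤ C1 * T := by positivity
      have hC3T : 0 ≤ C3 * T := by positivity
      have e9 : C * T = C1 * T + 2 * (T * (C2 + Real.log (1 + N))) +
        2 * (17 * T * (C3 * (1 + Real.log (1 + N)))) + C3 * T := by rw [hCd]; ring
      have e10 : C * T ≤ C * (1 + Real.log (1 / κ)) * T := by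
        apply mul_le_mul_of_nonneg_right _ (by linarith)
        exact le_mul_of_one_le_right (by linarith) (by linarith)
      refine le_trans ?_ e10
      rw [e9]
      linarith
  · refine vm.trans (v1.trans ?_)
    exact mul_le_mul_of_nonneg_right hCC3 (by linarith)

/-- the variance of a linear form at a prime -/
lemma dc_tr {L : ℕ} (l T : ℝ) (j0 : ℕ) (a : Fin L → ℝ) (ha : ∑ j, a j = 0) (p : ℕ) (hp : p ≠ 0) :
    dc l a (fun j : Fin L => 2 * Real.pi * ((j0 : ℝ) + 1 + j) / Real.log T) p ^ 2 =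
      wk l p ^ 2 / 4 * ‖Tr (fun j => (a j : ℂ)) (th T p)‖ ^ 2 := by
  unfold dc
  rw [Dc_tr l T j0 a ha p hp, norm_mul, norm_mul, ex_norm, mul_one, norm_div, norm_mul, Complex.norm_I, one_mul,
    Complex.norm_real, Real.norm_eq_abs, mul_pow, div_pow, sq_abs]
  norm_num

lemma tr_bessel {L r s : ℕ} {u : Fin r → Fin L → ℝ} {w : Fin s → Fin L → ℝ} (h : Fam u w) (θ : ℝ) :
    ∑ k, ‖Tr (fun j => (u k j : ℂ)) θ‖ ^ 2 ≤ 4 * ∑ j : Fin L, Real.sin (j * (θ / 2)) ^ 2 := by
  have hbes : ∀ x : Fin L → ℝ, ∑ k, (∑ j, u k j * x j) ^ 2 ≤ ∑ j, x j ^ 2 := by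
    intro x
    have h1 := h.par x
    have h2 : 0 ≤ ∑ l, (∑ j, w l j * x j) ^ 2 := by positivity
    linarith
  simp only [Tr_real, Finset.sum_add_distrib]
  have h1 := hbes (fun j => Real.cos (j * θ) - 1)
  have h2 := hbes (fun j => Real.sin (j * θ))
  have e1 : ∀ k, ∑ j, u k j * Real.cos (j * θ) = ∑ j, u k j * (Real.cos (j * θ) - 1) := by
    intro k
    have := h.sum0 k
    simp only [mul_sub, mul_one, Finset.sum_sub_distrib, this, sub_zero]
  simp only [e1]
  have e2 : ∑ j : Fin L, (Real.cos (j * θ) - 1) ^ 2 + ∑ j : Fin L, Real.sin (j * θ) ^ 2 =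
      4 * ∑ j : Fin L, Real.sin (j * (θ / 2)) ^ 2 := by
    rw [← Finset.sum_add_distrib, Finset.mul_sum]
    refine Finset.sum_congr rfl fun j _ => ?_
    have h3 : Real.cos (j * θ) = 1 - 2 * Real.sin (j * (θ / 2)) ^ 2 := by
      have := Real.cos_two_mul ((j : ℝ) * (θ / 2))
      have h4 := Real.sin_sq_add_cos_sq ((j : ℝ) * (θ / 2))
      rw [show 2 * ((j : ℝ) * (θ / 2)) = j * θ by ring] at this
      nlinarith
    have h5 := Real.sin_sq_add_cos_sq ((j : ℝ) * θ)
    nlinarith
  linarith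

/-- the upper bound for the trace -/
lemma tr_up {L r s : ℕ} {u : Fin r → Fin L → ℝ} {w : Fin s → Fin L → ℝ} (hF : Fam u w) (l T : ℝ) (j0 X : ℕ) :
    ∑ k, VS (dc l (u k) (fun j : Fin L => 2 * Real.pi * ((j0 : ℝ) + 1 + j) / Real.log T)) X ≤
      ∑ j : Fin L, VS (rc l (2 * Real.pi * (j : ℕ) / Real.log T)) X := by
  unfold VS
  rw [Finset.sum_comm, Finset.sum_comm (s := (Finset.univ : Finset (Fin L)))]
  refine Finset.sum_le_sum fun p hp => ?_
  have hp0 := (mem_Pr.1 hp).1.ne_zero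
  have e1 : ∑ k, dc l (u k) (fun j : Fin L => 2 * Real.pi * ((j0 : ℝ) + 1 + j) / Real.log T) p ^ 2 =
      wk l p ^ 2 / 4 * ∑ k, ‖Tr (fun j => (u k j : ℂ)) (th T p)‖ ^ 2 := by
    rw [Finset.mul_sum]
    refine Finset.sum_congr rfl fun k _ => ?_
    exact dc_tr l T j0 (u k) (hF.sum0 k) p hp0
  rw [e1]
  have e2 := mul_le_mul_of_nonneg_left (tr_bessel hF (th T p)) (by positivity : 0 ≤ wk l p ^ 2 / 4)
  refine e2.trans (le_of_eq ?_)
  rw [show wk l p ^ 2 / 4 * (4 * ∑ j : Fin L, Real.sin (j * (th T p / 2)) ^ 2) =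
    wk l p ^ 2 * ∑ j : Fin L, Real.sin (j * (th T p / 2)) ^ 2 by ring, Finset.mul_sum]
  refine Finset.sum_congr rfl fun j _ => ?_
  rw [rc_wk, mul_pow]
  congr 3
  unfold th
  ring

/-- the variance over the larger primes -/
lemma vs_split : ∃ C : ℝ, 1 ≤ C ∧ ∀ (lam : ℝ) (X M i0 : ℕ) (T : ℝ), 16 ≤ lam → 1 ≤ i0 → lam ≤ (M : ℝ) / i0 →
      C * M ≤ Real.log T →
      VS (rc (Real.log T / lam) (2 * Real.pi * ((M : ℝ) / i0) / Real.log T)) X ≤
        ∑ p ∈ (Pr X).filter (fun p : ℕ => (i0 : ℝ) * Real.log T / M < Real.log p),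
          wk (Real.log T / lam) p ^ 2 + 20 := by
  obtain ⟨C, hC1, hC⟩ := mert
  refine ⟨C, hC1, fun lam X M i0 T hlam hi0 ha hCT => ?_⟩
  have hpi := Real.pi_pos
  have hi1 : (1 : ℝ) ≤ i0 := by exact_mod_cast hi0
  obtain ⟨a, had⟩ : ∃ a : ℝ, a = (M : ℝ) / i0 := ⟨_, rfl⟩
  rw [← had] at ha ⊢
  have ha0 : 0 < a := by linarith
  have haM : (M : ℝ) = a * i0 := by rw [had]; field_simp
  have hM0 : (0 : ℝ) < M := by rw [haM]; positivity
  have haM' : a ≤ M := by rw [haM]; exact le_mul_of_one_le_right ha0.le hi1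
  have hT0' : 0 < Real.log T := by
    have : 0 < C * M := by positivity
    linarith
  have hl : 0 < Real.log T / lam := by positivity
  unfold VS
  rw [← Finset.sum_filter_add_sum_filter_not (Pr X)
      (fun p : ℕ => (i0 : ℝ) * Real.log T / M < Real.log p)]
  refine add_le_add ?_ ?_
  · refine Finset.sum_le_sum fun p _ => ?_
    rw [rc_wk, mul_pow]
    have h3 := Real.sin_sq_le_one (2 * Real.pi * a / Real.log T / 2 * Real.log p)
    exact mul_le_of_le_one_right (sq_nonneg _) h3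
  · have b1 : ∀ p ∈ (Pr X).filter (fun p : ℕ => ¬ (i0 : ℝ) * Real.log T / M < Real.log p),
        rc (Real.log T / lam) (2 * Real.pi * a / Real.log T) p ^ 2 ≤
        Real.log p / p * (Real.pi ^ 2 * a / Real.log T) := by
      intro p hp
      rw [Finset.mem_filter, mem_Pr, not_lt] at hp
      have hpp := hp.1.1
      have hp0 : (0 : ℝ) < p := by exact_mod_cast hpp.pos
      have hlp : 0 < Real.log p := Real.log_pos (by exact_mod_cast hpp.one_lt)
      rw [rc_wk, mul_pow]
      have e1 : Real.sin (2 * Real.pi * a / Real.log T / 2 * Real.log p) ^ 2 ≤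
          (2 * Real.pi * a / Real.log T / 2 * Real.log p) ^ 2 := by
        rw [← sq_abs (Real.sin _), ← sq_abs (2 * Real.pi * a / Real.log T / 2 * Real.log p)]
        exact pow_le_pow_left₀ (abs_nonneg _) Real.abs_sin_le_abs 2
      have e2 : Real.log p * (a / Real.log T) ≤ 1 := by
        have e3 : (i0 : ℝ) * Real.log T / M = Real.log T / a := by rw [haM]; field_simp
        rw [e3] at hp
        rw [mul_div_assoc', div_le_one hT0']
        exact (le_div_iff₀ ha0).1 hp.2
      calc wk (Real.log T / lam) p ^ 2 * Real.sin (2 * Real.pi * a / Real.log T / 2 * Real.log p) ^ 2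
          ≤ 1 / (p : ℝ) * (2 * Real.pi * a / Real.log T / 2 * Real.log p) ^ 2 :=
            mul_le_mul (wk_sq hl hpp) e1 (sq_nonneg _) (by positivity)
        _ = Real.log p / p * (Real.pi ^ 2 * a / Real.log T) * (Real.log p * (a / Real.log T)) := by
            field_simp
        _ ≤ Real.log p / p * (Real.pi ^ 2 * a / Real.log T) * 1 := by gcongr
        _ = _ := mul_one _
    refine (Finset.sum_le_sum b1).trans ?_
    rw [← Finset.sum_mul]
    have b2 := hC ((Pr X).filter (fun p : ℕ => ¬ (i0 : ℝ) * Real.log T / M < Real.log p)) 0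
      ((i0 : ℝ) * Real.log T / M) le_rfl (by positivity)
      (fun p hp => (mem_Pr.1 (Finset.mem_filter.1 hp).1).1) (fun p hp => by
        rw [Finset.mem_filter, mem_Pr, not_lt] at hp
        exact ⟨Real.log_pos (by exact_mod_cast hp.1.1.one_lt), hp.2⟩)
    have e3 : (i0 : ℝ) * Real.log T / M = Real.log T / a := by rw [haM]; field_simp
    have b3 : (i0 : ℝ) * Real.log T / M - 0 + C ≤ 2 * (Real.log T / a) := by
      rw [e3]
      have : C ≤ Real.log T / a := by
        rw [le_div_iff₀ ha0]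
        nlinarith
      linarith
    calc (∑ p ∈ (Pr X).filter (fun p : ℕ => ¬ (i0 : ℝ) * Real.log T / M < Real.log p),
          Real.log p / p) * (Real.pi ^ 2 * a / Real.log T)
        ≤ 2 * (Real.log T / a) * (Real.pi ^ 2 * a / Real.log T) := by
          apply mul_le_mul_of_nonneg_right (b2.trans b3) (by positivity)
      _ = 2 * Real.pi ^ 2 := by field_simp
      _ ≤ 20 := by nlinarith [Real.pi_lt_d2]

end Pool.Agent.X112.WE
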