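import Pool.Agent.X112.WE.D

/-! # The trace over the larger primes and the size of the coefficients -/

set_option autoImplicit false

namespace Pool.Agent.X112.WE

open MeasureTheory Filter Topology
open SG (ord NZ)
open Pool.Agent.Y743.CL (Pr mem_Pr rc XK G er VS VS_nonneg comb)
open Pool.Agent.X112.SD (wk rc_wk)
open Pool.Agent.X112.LF (dc Dc)
open Pool.Agent.X112.WD (high wk_sq Tr Tr_real Tr_lip Tr_zero th Fam par_tr)

lemma fam_r {L r s : ℕ} {u : Fin r → Fin L → ℝ} {w : Fin s → Fin L → ℝ} (h : Fam u w) : r ≤ L := by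
  have h1 : ∀ j : Fin L, ∑ k, u k j ^ 2 ≤ 1 := by
    intro j
    have h2 := h.par (Pi.single j 1)
    simp only [Pi.single_apply, mul_ite, mul_one, mul_zero, Finset.sum_ite_eq', Finset.mem_univ, if_true, ite_pow,
      one_pow, ne_eq, OfNat.ofNat_ne_zero, not_false_eq_true, zero_pow] at h2
    have h3 : 0 ≤ ∑ l, w l j ^ 2 := by positivity
    linarith
  have h4 : (r : ℝ) ≤ L := by
    calc (r : ℝ) = ∑ k : Fin r, ∑ j, u k j ^ 2 := by
          have : ∀ k : Fin r, ∑ j, u k j ^ 2 = 1 := by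
            intro k
            have := h.ou k k
            simp only [if_true] at this
            rw [← this]
            exact Finset.sum_congr rfl fun j _ => sq _
          simp [this]
      _ = ∑ j, ∑ k, u k j ^ 2 := Finset.sum_comm
      _ ≤ ∑ j : Fin L, (1 : ℝ) := Finset.sum_le_sum fun j _ => h1 j
      _ = L := by simp
  exact_mod_cast h4

theorem high_k (lam C1 T0 : ℝ) (hlam : 16 ≤ lam) (hC1 : 1 ≤ C1) (hVS : ∀ T : ℝ, T0 ≤ T → ∀ κ : ℝ, 0 < κ →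
      κ ≤ 1 / 16 → 8 ≤ κ * Real.log T → ∀ a : ℝ, lam ≤ a → a * Real.log a ≤ Real.log T →
      |VS (rc (Real.log T / lam) (2 * Real.pi * a / Real.log T)) (XK κ T) -
        2 / Real.pi ^ 2 * Real.log a| ≤ C1 * (1 + Real.log (1 / κ))) :
    ∃ C : ℝ, 1 ≤ C ∧ ∀ (L r s : ℕ) (u : Fin r → Fin L → ℝ) (w : Fin s → Fin L → ℝ), Fam u w →
      ∀ (j0 M i0 : ℕ) (T κ : ℝ), 1 ≤ L → 7 * L ^ 2 ≤ M → 1 ≤ i0 → lam ≤ (M : ℝ) / i0 →
      (M : ℝ) * Real.log M ≤ Real.log T → C * M ≤ Real.log T → T0 ≤ T → 1 ≤ T → 0 < κ → κ ≤ 1 / 16 →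
      8 ≤ κ * Real.log T →
      ∃ ν : Fin r → ℝ, (∀ k, 0 ≤ ν k ∧ ν k ≤ VS (dc (Real.log T / lam) (u k)
          (fun j : Fin L => 2 * Real.pi * ((j0 : ℝ) + 1 + j) / Real.log T)) (XK κ T) ∧ ν k ≤ 2 * M / i0) ∧
        (L * (2 / Real.pi ^ 2 * Real.log ((M : ℝ) / i0) - C * (1 + Real.log (1 / κ))) - s * (8 * M / i0)) / 4 ≤
          ∑ k, ν k := by
  obtain ⟨C3, hC3, h3⟩ := high
  obtain ⟨C4, hC4, h4⟩ := vs_split
  refine ⟨C1 + 20 + C3 + C4, by linarith, fun L r s u w hF j0 M i0 T κ hL hM hi0 ha hMT hCT hTT0 hT1 hκ hκ16 hκT => ?_⟩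
  have hpi := Real.pi_pos
  have hL1 : (1 : ℝ) ≤ L := by exact_mod_cast hL
  have hM' : 7 * (L : ℝ) ^ 2 ≤ M := by exact_mod_cast hM
  have hM0 : (0 : ℝ) < M := by nlinarith
  have hi1 : (1 : ℝ) ≤ i0 := by exact_mod_cast hi0
  have hT0 : 0 < Real.log T := by nlinarith
  have hC3M : C3 * (M : ℝ) ≤ Real.log T := by nlinarith
  have hC4M : C4 * (M : ℝ) ≤ Real.log T := by nlinarith
  have hlκ : 0 ≤ Real.log (1 / κ) := Real.log_nonneg (by rw [le_div_iff₀ hκ]; linarith)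
  obtain ⟨a, had⟩ : ∃ a : ℝ, a = (M : ℝ) / i0 := ⟨_, rfl⟩
  have haM : a ≤ M := by rw [had]; exact div_le_self hM0.le hi1
  have ha1 : lam ≤ a := by rw [had]; exact ha
  have haT : a * Real.log a ≤ Real.log T := by
    refine le_trans ?_ hMT
    exact mul_le_mul haM (Real.log_le_log (by linarith) haM) (Real.log_nonneg (by linarith)) hM0.le
  have e0 := hVS T hTT0 κ hκ hκ16 hκT a ha1 haT
  have e9 := h4 lam (XK κ T) M i0 T hlam hi0 ha hC4M
  rw [← had] at e9 ⊢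
  obtain ⟨l, hl⟩ : ∃ l : ℝ, l = Real.log T / lam := ⟨_, rfl⟩
  have hl0 : 0 < l := by rw [hl]; positivity
  obtain ⟨X, hX⟩ : ∃ X : ℕ, X = XK κ T := ⟨_, rfl⟩
  obtain ⟨h, hh⟩ : ∃ h : Fin L → ℝ, h = fun j : Fin L => 2 * Real.pi * ((j0 : ℝ) + 1 + j) / Real.log T := ⟨_, rfl⟩
  have hXT : (X : ℝ) ≤ T := by
    rw [hX]
    unfold XK
    refine (Nat.floor_le (by positivity)).trans ?_
    calc T ^ κ ≤ T ^ (1 : ℝ) := Real.rpow_le_rpow_of_exponent_le hT1 (by linarith)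
      _ = T := Real.rpow_one _
  have hlogp : ∀ p ∈ Pr X, Real.log p ≤ Real.log T := by
    intro p hp
    rw [mem_Pr] at hp
    apply Real.log_le_log (by exact_mod_cast hp.1.pos)
    have : (p : ℝ) ≤ X := by exact_mod_cast hp.2
    linarith
  have hprime : ∀ p ∈ Pr X, p.Prime := fun p hp => (mem_Pr.1 hp).1
  obtain ⟨Ph, hPh⟩ : ∃ Ph : Finset ℕ, Ph = (Pr X).filter (fun p : ℕ => (i0 : ℝ) * Real.log T / M < Real.log p) :=
    ⟨_, rfl⟩
  rw [← hl, ← hX] at e0 e9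
  rw [← hl, ← hX, ← hh]
  rw [← hPh] at e9
  have hPsub : Ph ⊆ Pr X := by rw [hPh]; exact Finset.filter_subset _ _
  have hdc : ∀ p ∈ Ph, ∀ k, dc l (u k) h p ^ 2 = wk l p ^ 2 / 4 * ‖Tr (fun j => (u k j : ℂ)) (th T p)‖ ^ 2 := by
    intro p hp k
    rw [hh]
    exact dc_tr l T j0 (u k) (hF.sum0 k) p (hprime p (hPsub hp)).ne_zero
  have hun : ∀ k, ∑ j, ‖((u k j : ℝ) : ℂ)‖ ^ 2 = 1 := by
    intro k
    have h1 := hF.ou k k
    simp only [if_true] at h1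
    rw [← h1]
    refine Finset.sum_congr rfl fun j _ => ?_
    rw [Complex.norm_real, Real.norm_eq_abs, sq_abs, sq]
  have hwn : ∀ k, ∑ j, ‖((w k j : ℝ) : ℂ)‖ ^ 2 = 1 := by
    intro k
    rw [← hF.ow k]
    refine Finset.sum_congr rfl fun j _ => ?_
    rw [Complex.norm_real, Real.norm_eq_abs, sq_abs]
  have hhigh : ∀ v : Fin L → ℂ, ∑ j, ‖v j‖ ^ 2 = 1 → ∑ p ∈ Ph, wk l p ^ 2 * ‖Tr v (th T p)‖ ^ 2 ≤ 8 * M / i0 := by
    intro v hv
    have e7 := h3 L M i0 T v Ph hL hM hi0 hC3M (fun p hp => hprime p (hPsub hp))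
      (fun p hp => by rw [hPh] at hp; exact (Finset.mem_filter.1 hp).2) (fun p hp => hlogp p (hPsub hp))
    rw [hv, mul_one] at e7
    refine le_trans (Finset.sum_le_sum fun p hp => ?_) e7
    exact mul_le_mul_of_nonneg_right (wk_sq hl0 (hprime p (hPsub hp))) (sq_nonneg _)
  refine ⟨fun k => ∑ p ∈ Ph, dc l (u k) h p ^ 2, fun k => ⟨Finset.sum_nonneg fun _ _ => sq_nonneg _, ?_, ?_⟩, ?_⟩
  · unfold VS
    exact Finset.sum_le_sum_of_subset_of_nonneg hPsub fun _ _ _ => sq_nonneg _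
  · have e1 := hhigh (fun j => (u k j : ℂ)) (hun k)
    have e2 : ∑ p ∈ Ph, dc l (u k) h p ^ 2 = 1 / 4 * ∑ p ∈ Ph, wk l p ^ 2 * ‖Tr (fun j => (u k j : ℂ)) (th T p)‖ ^ 2 := by
      rw [Finset.mul_sum]
      refine Finset.sum_congr rfl fun p hp => ?_
      rw [hdc p hp k]
      ring
    show ∑ p ∈ Ph, dc l (u k) h p ^ 2 ≤ _
    rw [e2]
    calc 1 / 4 * ∑ p ∈ Ph, wk l p ^ 2 * ‖Tr (fun j => (u k j : ℂ)) (th T p)‖ ^ 2 ≤ 1 / 4 * (8 * M / i0) :=
          mul_le_mul_of_nonneg_left e1 (by norm_num)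
      _ = 2 * M / i0 := by ring
  · have e3 : ∑ k, ∑ p ∈ Ph, dc l (u k) h p ^ 2 =
        ∑ p ∈ Ph, (L / 4 * wk l p ^ 2 - 1 / 4 * ∑ i, wk l p ^ 2 * ‖Tr (fun j => (w i j : ℂ)) (th T p)‖ ^ 2) := by
      rw [Finset.sum_comm]
      refine Finset.sum_congr rfl fun p hp => ?_
      rw [Finset.sum_congr rfl fun k _ => hdc p hp k, ← Finset.mul_sum]
      have := par_tr hF (th T p)
      have e4 : ∑ k, ‖Tr (fun j => (u k j : ℂ)) (th T p)‖ ^ 2 =
          L - ∑ i, ‖Tr (fun j => (w i j : ℂ)) (th T p)‖ ^ 2 := by linarith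
      rw [e4, ← Finset.mul_sum]
      ring
    rw [e3, Finset.sum_sub_distrib, ← Finset.mul_sum, ← Finset.mul_sum]
    have e5 : ∑ p ∈ Ph, ∑ i, wk l p ^ 2 * ‖Tr (fun j => (w i j : ℂ)) (th T p)‖ ^ 2 ≤ s * (8 * M / i0) := by
      rw [Finset.sum_comm]
      refine (Finset.sum_le_sum fun i _ => hhigh (fun j => (w i j : ℂ)) (hwn i)).trans (le_of_eq ?_)
      rw [Finset.sum_const, Finset.card_univ, Fintype.card_fin, nsmul_eq_mul]
    have e6 : 2 / Real.pi ^ 2 * Real.log a - (C1 + 20 + C3 + C4) * (1 + Real.log (1 / κ)) ≤ ∑ p ∈ Ph, wk l p ^ 2 := by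
      have h5 := (abs_le.1 e0).1
      have h6 : C1 * (1 + Real.log (1 / κ)) + 20 ≤ (C1 + 20 + C3 + C4) * (1 + Real.log (1 / κ)) := by
        nlinarith
      linarith
    have e10 : L / 4 * (2 / Real.pi ^ 2 * Real.log a - (C1 + 20 + C3 + C4) * (1 + Real.log (1 / κ))) ≤
        L / 4 * ∑ p ∈ Ph, wk l p ^ 2 := mul_le_mul_of_nonneg_left e6 (by positivity)
    nlinarith

/-- a single coefficient is small -/
theorem dc_small (L : ℕ) (S ρ lam : ℝ) (hlam : 0 < lam) (hS : 0 ≤ S) (hρ : 0 < ρ) : ∃ T1 : ℝ, 1 < T1 ∧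
    ∀ T : ℝ, T1 ≤ T → ∀ (a : Fin L → ℝ), ∑ j, a j = 0 → ∑ j, a j ^ 2 ≤ S → ∀ (j0 p : ℕ), p.Prime →
    dc (Real.log T / lam) a (fun j : Fin L => 2 * Real.pi * ((j0 : ℝ) + 1 + j) / Real.log T) p ^ 2 ≤ ρ := by
  obtain ⟨P0, hP0⟩ : ∃ P0 : ℝ, P0 = L * S / ρ + 2 := ⟨_, rfl⟩
  have hP02 : 2 ≤ P0 := by rw [hP0]; have : 0 ≤ L * S / ρ := by positivity
                           linarith
  have hlP : 0 < Real.log P0 := Real.log_pos (by linarith)
  obtain ⟨T1, hT1⟩ := (Real.tendsto_log_atTop.eventually_ge_atTop (max 1 ((2 * Real.pi * Real.log P0) ^ 2 *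
    ((L : ℝ) ^ 3 * S) / ρ))).exists_forall_of_atTop
  refine ⟨max T1 2, lt_of_lt_of_le (by norm_num) (le_max_right _ _), fun T hT a ha haS j0 p hp => ?_⟩
  have g := hT1 T ((le_max_left _ _).trans hT)
  have g1 := (le_max_left _ _).trans g
  have g2 := (le_max_right _ _).trans g
  have hl0 : 0 < Real.log T := by linarith
  have hp0 : (0 : ℝ) < p := by exact_mod_cast hp.pos
  have hp2 : (2 : ℝ) ≤ p := by exact_mod_cast hp.two_le
  rw [dc_tr _ T j0 a ha p hp.ne_zero]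
  have hwk := wk_sq (by positivity : 0 < Real.log T / lam) hp
  have hn : ∑ j, ‖((a j : ℝ) : ℂ)‖ ^ 2 = ∑ j, a j ^ 2 := by
    refine Finset.sum_congr rfl fun j _ => ?_
    rw [Complex.norm_real, Real.norm_eq_abs, sq_abs]
  rcases le_or_gt P0 (p : ℝ) with hpP | hpP
  · have h1 : ‖Tr (fun j => (a j : ℂ)) (th T p)‖ ^ 2 ≤ L * S := by
      rw [Tr_real]
      have c1 := Finset.sum_mul_sq_le_sq_mul_sq Finset.univ a (fun j : Fin L => Real.cos (j * th T p))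
      have c2 := Finset.sum_mul_sq_le_sq_mul_sq Finset.univ a (fun j : Fin L => Real.sin (j * th T p))
      have h3 : ∑ j : Fin L, Real.cos (j * th T p) ^ 2 + ∑ j : Fin L, Real.sin (j * th T p) ^ 2 = L := by
        rw [← Finset.sum_add_distrib]
        simp
      have h4 : (∑ j, a j ^ 2) * L ≤ L * S := by
        rw [mul_comm]
        exact mul_le_mul_of_nonneg_left haS (Nat.cast_nonneg _)
      have h5 : (∑ j, a j ^ 2) * (∑ j : Fin L, Real.cos (j * th T p) ^ 2) +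
        (∑ j, a j ^ 2) * (∑ j : Fin L, Real.sin (j * th T p) ^ 2) = (∑ j, a j ^ 2) * L := by
        rw [← mul_add, h3]
      linarith
    calc wk (Real.log T / lam) p ^ 2 / 4 * ‖Tr (fun j => (a j : ℂ)) (th T p)‖ ^ 2 ≤ 1 / (p : ℝ) / 4 * (L * S) :=
          mul_le_mul (by linarith) h1 (by positivity) (by positivity)
      _ ≤ ρ := by
        rw [show 1 / (p : ℝ) / 4 * (L * S) = L * S / (4 * p) by field_simp, div_le_iff₀ (by positivity)]
        have h6 : L * S / ρ ≤ p := by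
          have : 0 ≤ L * S / ρ := by positivity
          linarith
        rw [div_le_iff₀ hρ] at h6
        nlinarith
  · have h1 : ‖Tr (fun j => (a j : ℂ)) (th T p)‖ ^ 2 ≤ (L : ℝ) ^ 3 * (th T p) ^ 2 * S := by
      have h2 := Tr_lip (fun j => (a j : ℂ)) (th T p) 0
      rw [Tr_zero _ (by rw [← Complex.ofReal_sum, ha]; simp), sub_zero, sub_zero, sq_abs, hn] at h2
      exact h2.trans (mul_le_mul_of_nonneg_left haS (by positivity))
    have h2 : (th T p) ^ 2 * ((L : ℝ) ^ 3 * S) ≤ ρ := by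
      have h3 : (th T p) ^ 2 ≤ (2 * Real.pi * Real.log P0) ^ 2 / Real.log T ^ 2 := by
        unfold th
        rw [show 2 * Real.pi / Real.log T * Real.log p = 2 * Real.pi * Real.log p / Real.log T by ring, div_pow]
        have h4 : Real.log p ≤ Real.log P0 := Real.log_le_log hp0 hpP.le
        have h5 : 0 ≤ Real.log p := Real.log_nonneg (by linarith)
        have := Real.pi_pos
        gcongr
      have h4 : (2 * Real.pi * Real.log P0) ^ 2 / Real.log T ^ 2 * ((L : ℝ) ^ 3 * S) ≤ ρ := by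
        rw [div_mul_eq_mul_div, div_le_iff₀ (by positivity)]
        rw [div_le_iff₀ hρ] at g2
        have h5 : Real.log T ≤ Real.log T ^ 2 := by nlinarith
        nlinarith
      exact (mul_le_mul_of_nonneg_right h3 (by positivity)).trans h4
    have h3 : 1 / (p : ℝ) ≤ 1 := by rw [div_le_one hp0]; linarith
    calc wk (Real.log T / lam) p ^ 2 / 4 * ‖Tr (fun j => (a j : ℂ)) (th T p)‖ ^ 2 ≤
          1 * ((L : ℝ) ^ 3 * (th T p) ^ 2 * S) :=
          mul_le_mul (by linarith) h1 (by positivity) (by norm_num)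
      _ = (th T p) ^ 2 * ((L : ℝ) ^ 3 * S) := by ring
      _ ≤ ρ := h2

end Pool.Agent.X112.WE
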