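import Mathlib

/-! # The choice of the parameters -/

set_option autoImplicit false

namespace Pool.Agent.X112.WE

open Filter Topology

/-- the number of moments and the inequalities between the parameters -/
theorem num_E (ε θ C C2 c1 δ : ℝ) (h : ℕ) (hε : 0 < ε) (hε1 : ε ≤ 1) (hθ : 0 < θ) (hC : 1 ≤ C) (hC2 : 1 ≤ C2)
    (hc1 : 0 < c1) (hh : 1 ≤ h) (hδ : 0 < δ) (hδ1 : δ ≤ 1 / 4) (hδ2 : 4 * C * δ ≤ θ * ε / 256000)
    (hδ3 : 2 * C2 * δ ≤ ε / 500) :
    ∀ᶠ L : ℕ in atTop, ∃ m : ℕ, 4 ≤ m ∧ (m : ℝ) * (L : ℝ) ^ (ε / 2) ≤ 2 * L ∧ (m : ℝ) ≤ L ∧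
      C2 * (1 + Real.log (4 * m)) ≤ ε / 500 * Real.log L ∧
      ((L : ℝ) + h + 1) * (C * (1 + Real.log (4 * m))) ≤ θ / 8 * (ε / 32000 * (L * Real.log L)) ∧
      h * Real.exp ((L : ℝ) ^ (δ / 2)) * (4 * Real.exp (-(c1 * m))) ≤ θ / 8 := by
  have hlog : Tendsto (fun L : ℕ => Real.log (L : ℝ)) atTop atTop :=
    Real.tendsto_log_atTop.comp tendsto_natCast_atTop_atTop
  have hr : Tendsto (fun L : ℕ => ((L : ℝ)) ^ (δ / 2)) atTop atTop :=
    (tendsto_rpow_atTop (by linarith)).comp tendsto_natCast_atTop_atTop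
  have hh0 : (1 : ℝ) ≤ h := by exact_mod_cast hh
  filter_upwards [hr.eventually_ge_atTop 2, hr.eventually_ge_atTop (2 / c1),
    hr.eventually_ge_atTop (Real.log (32 * h / θ)), hlog.eventually_ge_atTop (4 / δ),
    eventually_ge_atTop (h + 2)] with L hL1 hL2 hL3 hL4 hL5
  have hL5' : (h : ℝ) + 2 ≤ L := by exact_mod_cast hL5
  have hL0 : (0 : ℝ) < L := by linarith
  have hL1' : (1 : ℝ) ≤ L := by linarith
  obtain ⟨x, hx⟩ : ∃ x : ℝ, x = (L : ℝ) ^ (δ / 2) := ⟨_, rfl⟩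
  rw [← hx] at hL1 hL2 hL3 ⊢
  have hx0 : 0 < x := by linarith
  obtain ⟨z, hz⟩ : ∃ z : ℝ, z = (L : ℝ) ^ δ := ⟨_, rfl⟩
  have hxz : z = x ^ 2 := by
    rw [hz, hx, ← Real.rpow_natCast, ← Real.rpow_mul hL0.le]
    congr 1
    push_cast
    ring
  have hz4 : 4 ≤ z := by rw [hxz]; nlinarith
  obtain ⟨m, hm⟩ : ∃ m : ℕ, m = ⌈z⌉₊ := ⟨_, rfl⟩
  have hm1 : z ≤ m := by rw [hm]; exact Nat.le_ceil _
  have hm2 : (m : ℝ) ≤ 2 * z := by
    have : (m : ℝ) < z + 1 := by rw [hm]; exact Nat.ceil_lt_add_one (by linarith)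
    linarith
  have hm4 : (4 : ℝ) ≤ m := by linarith
  have hm0 : (0 : ℝ) < m := by linarith
  have hlL : 0 < Real.log (L : ℝ) := Real.log_pos (by linarith)
  have hg : 1 + Real.log (4 * m) ≤ 2 * δ * Real.log L := by
    have h1 : Real.log (4 * m) ≤ Real.log (2 ^ 3 * z) := Real.log_le_log (by linarith) (by linarith)
    have hz0 : z ≠ 0 := (lt_of_lt_of_le (by norm_num) hz4).ne'
    rw [Real.log_mul (by norm_num : (2 : ℝ) ^ 3 ≠ 0) hz0, Real.log_pow, hz, Real.log_rpow hL0] at h1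
    have h2 := Real.log_two_lt_d9
    rw [div_le_iff₀ hδ] at hL4
    push_cast at h1
    linarith
  have hg0 : 0 ≤ 1 + Real.log (4 * m) := by
    have := Real.log_nonneg (by linarith : (1 : ℝ) ≤ 4 * m)
    linarith
  refine ⟨m, by exact_mod_cast hm4, ?_, ?_, ?_, ?_, ?_⟩
  · have h1 : z * (L : ℝ) ^ (ε / 2) ≤ L := by
      rw [hz, ← Real.rpow_add hL0]
      calc (L : ℝ) ^ (δ + ε / 2) ≤ (L : ℝ) ^ (1 : ℝ) := Real.rpow_le_rpow_of_exponent_le hL1' (by linarith)
        _ = L := Real.rpow_one _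
    have h2 : 0 ≤ (L : ℝ) ^ (ε / 2) := by positivity
    calc (m : ℝ) * (L : ℝ) ^ (ε / 2) ≤ 2 * z * (L : ℝ) ^ (ε / 2) := mul_le_mul_of_nonneg_right hm2 h2
      _ ≤ 2 * L := by linarith
  · have h1 : z * z ≤ L := by
      rw [hz, ← Real.rpow_add hL0]
      calc (L : ℝ) ^ (δ + δ) ≤ (L : ℝ) ^ (1 : ℝ) := Real.rpow_le_rpow_of_exponent_le hL1' (by linarith)
        _ = L := Real.rpow_one _
    nlinarith
  · calc C2 * (1 + Real.log (4 * m)) ≤ C2 * (2 * δ * Real.log L) := mul_le_mul_of_nonneg_left hg (by linarith)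
      _ = 2 * C2 * δ * Real.log L := by ring
      _ ≤ ε / 500 * Real.log L := mul_le_mul_of_nonneg_right hδ3 hlL.le
  · calc ((L : ℝ) + h + 1) * (C * (1 + Real.log (4 * m))) ≤ (2 * L) * (C * (2 * δ * Real.log L)) := by
          apply mul_le_mul (by linarith) _ (by positivity) (by positivity)
          exact mul_le_mul_of_nonneg_left hg (by linarith)
      _ = 4 * C * δ * (L * Real.log L) := by ring
      _ ≤ θ * ε / 256000 * (L * Real.log L) := mul_le_mul_of_nonneg_right hδ2 (by positivity)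
      _ = θ / 8 * (ε / 32000 * (L * Real.log L)) := by ring
  · have h1 : x - c1 * m ≤ -x := by
      rw [div_le_iff₀ hc1] at hL2
      have h2 : c1 * x ^ 2 ≤ c1 * m := mul_le_mul_of_nonneg_left (by rw [← hxz]; exact hm1) hc1.le
      nlinarith
    have h2 : Real.exp (-x) ≤ θ / (32 * h) := by
      have h3 : Real.exp (-x) ≤ Real.exp (-Real.log (32 * h / θ)) := Real.exp_le_exp.2 (by linarith)
      rw [Real.exp_neg, Real.exp_neg, Real.exp_log (by positivity)] at h3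
      rw [Real.exp_neg]
      refine h3.trans (le_of_eq ?_)
      rw [inv_div]
    calc h * Real.exp x * (4 * Real.exp (-(c1 * m))) = 4 * h * (Real.exp (x - c1 * m)) := by
          rw [sub_eq_add_neg, Real.exp_add]
          ring
      _ ≤ 4 * h * Real.exp (-x) := mul_le_mul_of_nonneg_left (Real.exp_le_exp.2 h1) (by positivity)
      _ ≤ 4 * h * (θ / (32 * h)) := mul_le_mul_of_nonneg_left h2 (by positivity)
      _ = θ / 8 := by field_simp; ring

theorem num_M2 (ε lam : ℝ) (hε : 0 < ε) (hε1 : ε ≤ 1) (hlam : 16 ≤ lam) : ∀ᶠ L : ℕ in atTop,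
    2 ≤ L ∧ ∃ i0 : ℕ, 1 ≤ i0 ∧ lam ≤ ((7 * L ^ 2 : ℕ) : ℝ) / i0 ∧ ((7 * L ^ 2 : ℕ) : ℝ) / i0 ≤ (L : ℝ) ^ (ε / 2) ∧
      ∀ s : ℕ, (s : ℝ) ≤ (L : ℝ) ^ (1 - ε) + 3 → ∀ C : ℝ, C ≤ ε / 500 * Real.log L →
        ε / 50 * (L * Real.log L) ≤ (L * (2 / Real.pi ^ 2 * Real.log (((7 * L ^ 2 : ℕ) : ℝ) / i0) - C) -
          s * (8 * ((7 * L ^ 2 : ℕ) : ℝ) / i0)) / 4 := by
  have hlog : Tendsto (fun L : ℕ => Real.log (L : ℝ)) atTop atTop :=
    Real.tendsto_log_atTop.comp tendsto_natCast_atTop_atTop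
  have hr : Tendsto (fun L : ℕ => ((L : ℝ)) ^ (ε / 2)) atTop atTop :=
    (tendsto_rpow_atTop (by linarith)).comp tendsto_natCast_atTop_atTop
  filter_upwards [hr.eventually_ge_atTop (2 * lam), hlog.eventually_ge_atTop (33 * 100 / ε),
    eventually_ge_atTop 2] with L hL1 hL2 hL3
  refine ⟨hL3, ?_⟩
  have hL3' : (2 : ℝ) ≤ L := by exact_mod_cast hL3
  have hL0 : (0 : ℝ) < L := by linarith
  obtain ⟨x, hx⟩ : ∃ x : ℝ, x = (L : ℝ) ^ (ε / 2) := ⟨_, rfl⟩
  rw [← hx] at hL1 ⊢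
  have hx0 : 0 < x := by linarith
  have hxL : x ≤ L := by
    rw [hx]
    calc (L : ℝ) ^ (ε / 2) ≤ (L : ℝ) ^ (1 : ℝ) := Real.rpow_le_rpow_of_exponent_le (by linarith) (by linarith)
      _ = L := Real.rpow_one _
  obtain ⟨M, hM⟩ : ∃ M : ℝ, M = ((7 * L ^ 2 : ℕ) : ℝ) := ⟨_, rfl⟩
  have hM' : M = 7 * (L : ℝ) ^ 2 := by rw [hM]; push_cast; ring
  have hM0 : 0 < M := by rw [hM']; positivity
  have hxM : x ≤ M := by rw [hM']; nlinarith
  rw [← hM]
  obtain ⟨i0, hi0⟩ : ∃ i0 : ℕ, i0 = ⌈M / x⌉₊ := ⟨_, rfl⟩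
  have hi1 : M / x ≤ i0 := by rw [hi0]; exact Nat.le_ceil _
  have hMx : 1 ≤ M / x := by rw [le_div_iff₀ hx0]; linarith
  have hi2 : (i0 : ℝ) ≤ 2 * (M / x) := by
    have : (i0 : ℝ) < M / x + 1 := by rw [hi0]; exact Nat.ceil_lt_add_one (by positivity)
    linarith
  have hi3 : (1 : ℝ) ≤ i0 := hMx.trans hi1
  have hi4 : 1 ≤ i0 := by exact_mod_cast hi3
  have hi00 : (0 : ℝ) < i0 := by linarith
  have hup : M / i0 ≤ x := by
    rw [div_le_iff₀ hi00]
    rw [div_le_iff₀ hx0] at hi1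
    linarith
  have hlow : x / 2 ≤ M / i0 := by
    rw [le_div_iff₀ hi00]
    have : x * (2 * (M / x)) = 2 * M := by field_simp
    have h2 := mul_le_mul_of_nonneg_left hi2 hx0.le
    linarith
  refine ⟨i0, hi4, by linarith, hup, fun s hs C hCl => ?_⟩
  have hpi := Real.pi_pos
  have hpi2 : Real.pi ^ 2 ≤ 10 := by
    have := Real.pi_lt_d2
    nlinarith
  have hc : 1 / 5 ≤ 2 / Real.pi ^ 2 := by
    rw [div_le_div_iff₀ (by norm_num) (by positivity)]
    linarith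
  have hlogx : Real.log x = ε / 2 * Real.log L := by rw [hx, Real.log_rpow hL0]
  have h1 : ε / 2 * Real.log L - 1 ≤ Real.log (M / i0) := by
    have h2 : Real.log (x / 2) ≤ Real.log (M / i0) := Real.log_le_log (by linarith) hlow
    rw [Real.log_div hx0.ne' (by norm_num), hlogx] at h2
    have := Real.log_two_lt_d9
    linarith
  have h2 : ε / 10 * Real.log L - 1 / 5 ≤ 2 / Real.pi ^ 2 * Real.log (M / i0) := by
    have h3 : 0 ≤ Real.log (M / i0) := Real.log_nonneg (by linarith)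
    have h4 := mul_le_mul_of_nonneg_right hc h3
    linarith
  have h3 : s * (8 * M / i0) ≤ 32 * L := by
    have h4 : s * (8 * M / i0) ≤ ((L : ℝ) ^ (1 - ε) + 3) * (8 * x) := by
      have : 8 * M / i0 ≤ 8 * x := by
        rw [mul_div_assoc]
        linarith
      exact mul_le_mul hs this (by positivity) (by positivity)
    have h5 : (L : ℝ) ^ (1 - ε) * x ≤ L := by
      rw [hx, ← Real.rpow_add hL0]
      calc (L : ℝ) ^ (1 - ε + ε / 2) ≤ (L : ℝ) ^ (1 : ℝ) := Real.rpow_le_rpow_of_exponent_le (by linarith) (by linarith)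
        _ = L := Real.rpow_one _
    nlinarith
  have hlL : 0 ≤ Real.log (L : ℝ) := Real.log_nonneg (by linarith)
  have h4 : 33 ≤ ε / 100 * Real.log L := by
    rw [div_le_iff₀ hε] at hL2
    linarith
  have h5 : L * (ε / 10 * Real.log L - 1 / 5 - C) ≤ L * (2 / Real.pi ^ 2 * Real.log (M / i0) - C) :=
    mul_le_mul_of_nonneg_left (by linarith) hL0.le
  have h6 : L * 33 ≤ L * (ε / 100 * Real.log L) := mul_le_mul_of_nonneg_left h4 hL0.le
  have h7 : L * (ε / 10 * Real.log L - 1 / 5 - C) = ε / 10 * (L * Real.log L) - L * C - L / 5 := by ring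
  have h9 : L * (ε / 100 * Real.log L) = ε / 100 * (L * Real.log L) := by ring
  have h10 : L * C ≤ L * (ε / 500 * Real.log L) := mul_le_mul_of_nonneg_left hCl hL0.le
  have h11 : L * (ε / 500 * Real.log L) = ε / 500 * (L * Real.log L) := by ring
  have h12 : 0 ≤ ε * (L * Real.log L) := by positivity
  linarith

/-- the numerical inequality for the exponents -/
lemma num_dec (ε C LL lL m s R N : ℝ) (hε : 0 < ε) (hC : 1 ≤ C) (hLL : 0 < LL) (hlL : 1 ≤ lL) (hm : 0 < m)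
    (hs : s = m / (C * LL * (1 + lL))) (hR : R = ε / 800 * (LL * lL)) (hN : ε / 50 * (LL * lL) ≤ N) :
    s * R / 5 - s / 32 * N ≤ -(3 * ε / (16000 * C) * m) ∧ s * R / 5 ≤ ε * m / 4000 := by
  have hs0 : 0 < s := by rw [hs]; positivity
  have h1 : s * (LL * lL) = m / C * (lL / (1 + lL)) := by
    rw [hs]
    field_simp
  have h2 : 1 / 2 ≤ lL / (1 + lL) := by
    rw [div_le_div_iff₀ (by norm_num) (by linarith)]
    linarith
  have h3 : lL / (1 + lL) ≤ 1 := by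
    rw [div_le_one (by linarith)]
    linarith
  have h4 : m / C * (1 / 2) ≤ s * (LL * lL) := by
    rw [h1]
    exact mul_le_mul_of_nonneg_left h2 (by positivity)
  have h5 : s * (LL * lL) ≤ m := by
    rw [h1]
    calc m / C * (lL / (1 + lL)) ≤ m / C * 1 := mul_le_mul_of_nonneg_left h3 (by positivity)
      _ = m / C := mul_one _
      _ ≤ m := div_le_self hm.le hC
  have h6 : s / 32 * (ε / 50 * (LL * lL)) ≤ s / 32 * N := mul_le_mul_of_nonneg_left hN (by positivity)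
  constructor
  · have h7 : ε * (m / C * (1 / 2)) ≤ ε * (s * (LL * lL)) := mul_le_mul_of_nonneg_left h4 hε.le
    have e1 : s * R / 5 - s / 32 * (ε / 50 * (LL * lL)) = -(3 / 8000 * (ε * (s * (LL * lL)))) := by
      rw [hR]
      ring
    have e2 : 3 * ε / (16000 * C) * m = 3 / 8000 * (ε * (m / C * (1 / 2))) := by
      field_simp
      ring
    rw [e2]
    linarith
  · have h7 : ε * (s * (LL * lL)) ≤ ε * m := mul_le_mul_of_nonneg_left h5 hε.le
    have e1 : s * R / 5 = ε * (s * (LL * lL)) / 4000 := by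
      rw [hR]
      ring
    rw [e1]
    linarith

/-- the tail of the Taylor series -/
lemma num_fact (m : ℕ) (c x : ℝ) (hx : x ≤ m / 4000) (hc : c ≤ 1 / 4) :
    Real.exp x * (2 * (((m : ℝ) / 4) ^ m / m.factorial)) ≤ 2 * Real.exp (-(c * m)) := by
  have h1 := Real.pow_div_factorial_le_exp (m : ℝ) (Nat.cast_nonneg _) m
  have h2 : ((m : ℝ) / 4) ^ m / m.factorial = (m : ℝ) ^ m / m.factorial * Real.exp (-(Real.log 4 * m)) := by
    rw [div_pow, Real.exp_neg, Real.exp_mul, Real.exp_log (by norm_num), Real.rpow_natCast]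
    field_simp
  have h3 : Real.exp x * Real.exp m * Real.exp (-(Real.log 4 * m)) ≤ Real.exp (-(c * m)) := by
    rw [← Real.exp_add, ← Real.exp_add]
    apply Real.exp_le_exp.2
    have h4 : Real.log 4 = 2 * Real.log 2 := by
      rw [show (4 : ℝ) = 2 ^ 2 by norm_num, Real.log_pow]
      push_cast
      ring
    have h5 := Real.log_two_gt_d9
    have h6 : (0 : ℝ) ≤ m := Nat.cast_nonneg _
    have h7 : 0 ≤ (Real.log 4 - 1 - 1 / 4000 - c) * m := by
      apply mul_nonneg _ h6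
      rw [h4]
      linarith
    linarith
  rw [h2]
  have h8 : (m : ℝ) ^ m / m.factorial * Real.exp (-(Real.log 4 * m)) ≤ Real.exp m * Real.exp (-(Real.log 4 * m)) :=
    mul_le_mul_of_nonneg_right h1 (Real.exp_pos _).le
  have h9 := mul_le_mul_of_nonneg_left h8 (Real.exp_pos x).le
  linarith

end Pool.Agent.X112.WE
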