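import Pool.Agent.X112.WE.D2
import Pool.Agent.X112.WE.E1

/-! # The bound for one affine subspace -/

set_option autoImplicit false

namespace Pool.Agent.X112.WE

open MeasureTheory Filter Topology Module
open SG (ord NZ)
open Pool.Agent.Y743.CL (Pr mem_Pr rc XK G er VS VS_nonneg comb)
open Pool.Agent.X112.SD (wk rc_wk)
open Pool.Agent.X112.LF (dc Dc)
open Pool.Agent.X112.WD (high wk_sq Tr Tr_real Tr_lip Tr_zero th Fam par_tr comb_norm)

lemma fam_comb {L r s : ℕ} {u : Fin r → Fin L → ℝ} {w : Fin s → Fin L → ℝ} (h : Fam u w) (x : Fin r → ℝ) :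
    ∑ j, (∑ k, x k * u k j) ^ 2 = ∑ k, x k ^ 2 := by
  have h1 := comb_norm h (fun k => (x k : ℂ))
  have e1 : ∀ j, ‖∑ k, (x k : ℂ) * (u k j : ℂ)‖ ^ 2 = (∑ k, x k * u k j) ^ 2 := by
    intro j
    rw [show ∑ k, (x k : ℂ) * (u k j : ℂ) = ((∑ k, x k * u k j : ℝ) : ℂ) by push_cast; rfl, Complex.norm_real,
      Real.norm_eq_abs, sq_abs]
  simp only [e1, Complex.norm_real, Real.norm_eq_abs, sq_abs] at h1
  exact h1

lemma XK_pow {T : ℝ} (hT : 1 ≤ T) (m : ℕ) (hm : 1 ≤ m) :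
    ((XK (1 / (4 * m)) T ^ (2 * m) : ℕ) : ℝ) ≤ Real.sqrt T := by
  have hm0 : (0 : ℝ) < m := by exact_mod_cast hm
  push_cast
  have h1 : ((XK (1 / (4 * m)) T : ℕ) : ℝ) ≤ T ^ ((1 : ℝ) / (4 * m)) := by
    unfold XK
    exact Nat.floor_le (by positivity)
  calc ((XK (1 / (4 * m)) T : ℕ) : ℝ) ^ (2 * m) ≤ (T ^ ((1 : ℝ) / (4 * m))) ^ (2 * m) :=
        pow_le_pow_left₀ (Nat.cast_nonneg _) h1 _
    _ = T ^ ((1 : ℝ) / 2) := by
        rw [← Real.rpow_natCast, ← Real.rpow_mul (by linarith)]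
        congr 1
        push_cast
        field_simp
        norm_num
    _ = Real.sqrt T := (Real.sqrt_eq_rpow T).symm

theorem member (lam C T0 : ℝ) (hlam : 16 ≤ lam) (hC : 1 ≤ C) (hVS : ∀ T : ℝ, T0 ≤ T → ∀ κ : ℝ, 0 < κ →
      κ ≤ 1 / 16 → 8 ≤ κ * Real.log T → ∀ a : ℝ, lam ≤ a → a * Real.log a ≤ Real.log T →
      |VS (rc (Real.log T / lam) (2 * Real.pi * a / Real.log T)) (XK κ T) -
        2 / Real.pi ^ 2 * Real.log a| ≤ C * (1 + Real.log (1 / κ)))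
    (hV2 : ∀ K : ℕ, ∃ T1 : ℝ, 10 ≤ T1 ∧ ∀ T : ℝ, T1 ≤ T → ∀ κ : ℝ, 0 < κ → κ ≤ 1 / 16 → 8 ≤ κ * Real.log T →
      ∀ y : ℕ, y ≤ K →
      VS (rc (Real.log T / lam) (2 * Real.pi * y / Real.log T)) (XK κ T) ≤ C * (1 + Real.log (1 + y))) :
    ∃ C2 : ℝ, 1 ≤ C2 ∧ ∀ ε : ℝ, 0 < ε → ε ≤ 1 → ∀ᶠ L : ℕ in atTop, ∀ m : ℕ, 4 ≤ m →
      (m : ℝ) * (L : ℝ) ^ (ε / 2) ≤ 2 * L → (m : ℝ) ≤ L → C2 * (1 + Real.log (4 * m)) ≤ ε / 500 * Real.log L →
      ∃ T1 : ℝ, 10 ≤ T1 ∧ ∀ T : ℝ, T1 ≤ T → ∀ A B : ℝ, A ≤ B → B - A ≤ T →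
      ∀ (V : Submodule ℝ (Fin L → ℝ)) (p : Fin L → ℝ), (finrank ℝ V : ℝ) ≤ (L : ℝ) ^ (1 - ε) → ∀ i : ℕ,
      ∃ (r s : ℕ) (u : Fin r → Fin L → ℝ) (w : Fin s → Fin L → ℝ), Fam u w ∧
        (∀ k, ∑ j, u k j * ((j : ℕ) : ℝ) = 0) ∧ (∀ k, ∀ v ∈ V, ∑ j, u k j * v j = 0) ∧
        (∀ k, ∑ j, u k j * p j = 0) ∧
        volume.real {t | t ∈ Set.Icc A B ∧ ∑ k, (∑ j : Fin L, u k j *
          (gk lam (1 / (4 * m)) T (i + j + 1) t).re) ^ 2 ≤ ε / 800 * (L * Real.log L)} ≤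
          T * (4 * Real.exp (-(3 * ε / (16000 * C) * m))) := by
  obtain ⟨C2, hC2, hhigh⟩ := high_k lam C T0 hlam hC hVS
  refine ⟨C2, hC2, fun ε hε hε1 => ?_⟩
  have hlog : Tendsto (fun L : ℕ => Real.log (L : ℝ)) atTop atTop :=
    Real.tendsto_log_atTop.comp tendsto_natCast_atTop_atTop
  filter_upwards [num_M2 ε lam hε hε1 hlam, hlog.eventually_ge_atTop 1] with L hN hlL m hm4 hmL hmL2 hm500
  obtain ⟨hL2, i0, hi0, hli0, hui0, hN⟩ := hN
  have hL2' : (2 : ℝ) ≤ L := by exact_mod_cast hL2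
  have hL0 : (0 : ℝ) < L := by linarith
  have hm4' : (4 : ℝ) ≤ m := by exact_mod_cast hm4
  have hm0 : (0 : ℝ) < m := by linarith
  obtain ⟨M, hM⟩ : ∃ M : ℕ, M = 7 * L ^ 2 := ⟨_, rfl⟩
  rw [← hM] at hN hli0 hui0
  obtain ⟨K, hK, hsb⟩ := small_ball m (m : ℝ) (by linarith)
  obtain ⟨c1, hc1⟩ : ∃ c1 : ℝ, c1 = 3 * ε / (16000 * C) := ⟨_, rfl⟩
  rw [← hc1]
  have hc10 : 0 < c1 := by rw [hc1]; positivity
  have hc14 : c1 ≤ 1 / 4 := by
    rw [hc1, div_le_iff₀ (by positivity)]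
    nlinarith
  obtain ⟨ρ, hρ⟩ : ∃ ρ : ℝ, ρ = Real.exp (-(c1 * m) - m / 4000) / (2 * (K + 1)) := ⟨_, rfl⟩
  have hρ0 : 0 < ρ := by rw [hρ]; positivity
  obtain ⟨T2, hT2, hdc⟩ := dc_small L L ρ lam (by linarith) hL0.le hρ0
  obtain ⟨T3, hT3, hV2⟩ := hV2 L
  have hsq : ∀ᶠ T : ℝ in atTop, Real.sqrt T * (1 + Real.log T) ≤ ρ * T := by
    have h1 : (fun T : ℝ => 1 + Real.log T) =o[atTop] fun T : ℝ => T ^ (1 / 2 : ℝ) :=
      (Asymptotics.isLittleO_const_left_of_ne (by norm_num)).2 ((tendsto_norm_atTop_atTop.comp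
        (tendsto_rpow_atTop (by norm_num)))) |>.add (isLittleO_log_rpow_atTop (by norm_num))
    have h2 := h1.bound hρ0
    filter_upwards [h2, eventually_ge_atTop 1] with T hT hT1
    rw [Real.norm_of_nonneg (by positivity : (0 : ℝ) ≤ T ^ (1 / 2 : ℝ)), ← Real.sqrt_eq_rpow] at hT
    have h3 := (le_abs_self _).trans hT
    have h4 : Real.sqrt T * Real.sqrt T = T := Real.mul_self_sqrt (by linarith)
    calc Real.sqrt T * (1 + Real.log T) ≤ Real.sqrt T * (ρ * Real.sqrt T) :=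
          mul_le_mul_of_nonneg_left h3 (Real.sqrt_nonneg _)
      _ = ρ * (Real.sqrt T * Real.sqrt T) := by ring
      _ = ρ * T := by rw [h4]
  obtain ⟨T4, hT4⟩ := (hsq.and (((Real.tendsto_log_atTop.eventually_ge_atTop
    ((M : ℝ) * Real.log M)).and (Real.tendsto_log_atTop.eventually_ge_atTop (C2 * M))).and
    ((Real.tendsto_log_atTop.eventually_ge_atTop (32 * (m : ℝ))).and (eventually_ge_atTop T0)))).exists_forall_of_atTop
  refine ⟨max (max T2 T3) T4, hT3.trans ((le_max_right _ _).trans (le_max_left _ _)), fun T hT A B hAB hBA V p hV i => ?_⟩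
  have hTT2 : T2 ≤ T := ((le_max_left _ _).trans (le_max_left _ _)).trans hT
  have hTT3 : T3 ≤ T := ((le_max_right _ _).trans (le_max_left _ _)).trans hT
  obtain ⟨g1, ⟨g2, g3⟩, g4, g5⟩ := hT4 T ((le_max_right _ _).trans hT)
  have hT10 : 10 ≤ T := hT3.trans hTT3
  have hT1 : 1 ≤ T := by linarith
  have hlT : 0 < Real.log T := Real.log_pos (by linarith)
  obtain ⟨κ, hκ⟩ : ∃ κ : ℝ, κ = 1 / (4 * m) := ⟨_, rfl⟩
  have hκ0 : 0 < κ := by rw [hκ]; positivity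
  have hκ16 : κ ≤ 1 / 16 := by
    rw [hκ]
    apply one_div_le_one_div_of_le (by norm_num)
    linarith
  have hκT : 8 ≤ κ * Real.log T := by
    rw [hκ, div_mul_eq_mul_div, le_div_iff₀ (by positivity)]
    linarith
  have h1κ : 1 / κ = 4 * m := by rw [hκ, one_div_one_div]
  obtain ⟨X, hX⟩ : ∃ X : ℕ, X = XK κ T := ⟨_, rfl⟩
  obtain ⟨l, hl⟩ : ∃ l : ℝ, l = Real.log T / lam := ⟨_, rfl⟩
  obtain ⟨hp, hhp⟩ : ∃ h : Fin L → ℝ, h = fun j : Fin L => 2 * Real.pi * ((i : ℝ) + 1 + j) / Real.log T := ⟨_, rfl⟩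
  obtain ⟨r, s, u, w, hF, hs, hj, hVu, hpu, hdiag⟩ := fam_diag L V p (Pr X ×ˢ (Finset.univ : Finset Bool)) (xf l hp)
  refine ⟨r, s, u, w, hF, hj, hVu, hpu, ?_⟩
  have hs' : (s : ℝ) ≤ (L : ℝ) ^ (1 - ε) + 3 := by
    have : (s : ℝ) ≤ (finrank ℝ V : ℝ) + 3 := by exact_mod_cast hs
    linarith
  obtain ⟨ν, hν1, hν2⟩ := hhigh L r s u w hF i M i0 T κ (by omega) hM.ge hi0 hli0 g2 g3 g5 hT1 hκ0 hκ16 hκT
  rw [← hl, ← hX, ← hhp] at hν1
  rw [h1κ] at hν2
  have hN' := (hN s hs' (C2 * (1 + Real.log (4 * m))) hm500).trans hν2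
  obtain ⟨μ, hμ⟩ : ∃ μ : Fin r → ℝ, μ = fun k => VS (dc l (u k) hp) X := ⟨_, rfl⟩
  have hμs : ∑ k, μ k ≤ C * L * (1 + Real.log L) := by
    rw [hμ]
    have h1 := tr_up hF l T i X
    rw [← hhp] at h1
    refine h1.trans ?_
    have h2 : ∀ j : Fin L, VS (rc l (2 * Real.pi * (j : ℕ) / Real.log T)) X ≤ C * (1 + Real.log L) := by
      intro j
      have h3 := hV2 T hTT3 κ hκ0 hκ16 hκT j j.2.le
      rw [← hl, ← hX] at h3
      refine h3.trans (mul_le_mul_of_nonneg_left ?_ (by linarith))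
      have h4 : (1 : ℝ) + (j : ℕ) ≤ L := by
        have := j.2
        have : 1 + (j : ℕ) ≤ L := by omega
        exact_mod_cast this
      have := Real.log_le_log (by positivity : (0 : ℝ) < 1 + (j : ℕ)) h4
      linarith
    refine (Finset.sum_le_sum fun j _ => h2 j).trans (le_of_eq ?_)
    rw [Finset.sum_const, Finset.card_univ, Fintype.card_fin, nsmul_eq_mul]
    ring
  obtain ⟨sg, hsg⟩ : ∃ sg : ℝ, sg = m / (C * L * (1 + Real.log L)) := ⟨_, rfl⟩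
  have hden : 0 < C * L * (1 + Real.log L) := by positivity
  have hsg0 : 0 < sg := by rw [hsg]; positivity
  have hsg1 : sg ≤ 1 := by
    rw [hsg, div_le_one hden]
    have : (L : ℝ) ≤ C * L := le_mul_of_one_le_left hL0.le hC
    nlinarith
  obtain ⟨R2, hR2⟩ : ∃ R2 : ℝ, R2 = ε / 800 * (L * Real.log L) := ⟨_, rfl⟩
  obtain ⟨n1, n2⟩ := num_dec ε C L (Real.log L) m sg R2 (∑ k, ν k) hε hC hL0 hlL hm0 hsg hR2 hN'
  rw [← hc1] at n1
  have n3 : sg * R2 / 5 ≤ m / 4000 := by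
    refine n2.trans ?_
    apply div_le_div_of_nonneg_right _ (by norm_num)
    nlinarith
  have hrL := fam_r hF
  have hrL' : (r : ℝ) ≤ L := by exact_mod_cast hrL
  have hmain := hsb L r u l hp X T A B ρ sg R2 μ ν (by
      intro ζ
      rw [hμ]
      exact VS_diag l hp X u hdiag ζ) (by
      rw [hX]
      unfold XK
      apply Nat.le_floor
      push_cast
      exact Real.one_le_rpow hT1 hκ0.le) hT1 hAB hBA (by
      rw [hX, hκ]
      exact XK_pow hT1 m (by omega)) hρ0.le hsg0 (by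
      intro ζ hζ q hq
      rw [hhp, hl]
      refine hdc T hTT2 _ ?_ ?_ i q (mem_Pr.1 hq).1
      · rw [Finset.sum_comm]
        refine Finset.sum_eq_zero fun k _ => ?_
        rw [← Finset.mul_sum, hF.sum0 k, mul_zero]
      · rw [fam_comb hF]
        calc ∑ k, (Real.sqrt sg * ζ k) ^ 2 ≤ ∑ k : Fin r, (1 : ℝ) := by
              refine Finset.sum_le_sum fun k _ => ?_
              rw [mul_pow, Real.sq_sqrt hsg0.le]
              have h1 : ζ k ^ 2 ≤ 1 := by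
                rw [← sq_abs]
                exact pow_le_one₀ (abs_nonneg _) (hζ k)
              have h2 := sq_nonneg (ζ k)
              nlinarith
          _ = r := by simp
          _ ≤ L := hrL') (by
      intro k
      obtain ⟨a1, a2, a3⟩ := hν1 k
      refine ⟨a1, by rw [hμ]; exact a2, ?_⟩
      have a4 : ν k ≤ 2 * (L : ℝ) ^ (ε / 2) := by
        rw [mul_div_assoc] at a3
        linarith
      calc sg * ν k ≤ sg * (2 * (L : ℝ) ^ (ε / 2)) := mul_le_mul_of_nonneg_left a4 hsg0.le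
        _ = 2 * (m * (L : ℝ) ^ (ε / 2)) / (C * L * (1 + Real.log L)) := by
            rw [hsg]
            ring
        _ ≤ 4 := by
            rw [div_le_iff₀ hden]
            have : (L : ℝ) ≤ C * L := le_mul_of_one_le_left hL0.le hC
            nlinarith) (by
      calc sg * ∑ k, μ k ≤ sg * (C * L * (1 + Real.log L)) := mul_le_mul_of_nonneg_left hμs hsg0.le
        _ = m := by rw [hsg]; field_simp)
  have hset : {t | t ∈ Set.Icc A B ∧ ∑ k, (∑ j : Fin L, u k j *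
          (gk lam (1 / (4 * m)) T (i + j + 1) t).re) ^ 2 ≤ ε / 800 * (L * Real.log L)} =
      {t | t ∈ Set.Icc A B ∧ ∑ k, (∑ j : Fin L, u k j * (G (rc l (hp j)) X (t + hp j / 2)).re) ^ 2 ≤ R2} := by
    have e : ∀ j : Fin L, ((i + (j : ℕ) + 1 : ℕ) : ℝ) = (i : ℝ) + 1 + j := by
      intro j
      push_cast
      ring
    unfold gk
    simp only [e]
    rw [hR2, hhp, hl, hX, hκ]
  rw [hset]
  refine hmain.trans ?_
  have f1 : Real.exp (sg * R2 / 5) * Real.exp (-(sg / 32 * ∑ k, ν k)) ≤ Real.exp (-(c1 * m)) := by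
    rw [← Real.exp_add]
    exact Real.exp_le_exp.2 (by linarith)
  have f2 := num_fact m c1 (sg * R2 / 5) n3 hc14
  have f3 : Real.exp (sg * R2 / 5) * (K * (ρ * T + Real.sqrt T * (1 + Real.log T))) ≤ T * Real.exp (-(c1 * m)) := by
    have f4 : K * (ρ * T + Real.sqrt T * (1 + Real.log T)) ≤ T * Real.exp (-(c1 * m) - m / 4000) := by
      calc K * (ρ * T + Real.sqrt T * (1 + Real.log T)) ≤ (K + 1) * (ρ * T + ρ * T) := by
            apply mul_le_mul (by linarith) (by linarith) _ (by linarith)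
            have : 0 ≤ Real.sqrt T * (1 + Real.log T) := by positivity
            positivity
        _ = T * (ρ * (2 * (K + 1))) := by ring
        _ = T * Real.exp (-(c1 * m) - m / 4000) := by
            rw [hρ, div_mul_cancel₀ _ (by positivity)]
    have f5 : Real.exp (sg * R2 / 5) ≤ Real.exp (m / 4000) := Real.exp_le_exp.2 n3
    calc Real.exp (sg * R2 / 5) * (K * (ρ * T + Real.sqrt T * (1 + Real.log T))) ≤
          Real.exp (m / 4000) * (T * Real.exp (-(c1 * m) - m / 4000)) := by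
          refine (mul_le_mul_of_nonneg_left f4 (Real.exp_pos _).le).trans ?_
          exact mul_le_mul_of_nonneg_right f5 (by positivity)
      _ = T * Real.exp (-(c1 * m)) := by
          rw [← mul_assoc, mul_comm (Real.exp _) T, mul_assoc, ← Real.exp_add]
          congr 2
          ring
  have hT0' : 0 ≤ T := by linarith
  have f6 := mul_le_mul_of_nonneg_left (add_le_add f1 f2) hT0'
  linarith

end Pool.Agent.X112.WE
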