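import Pool.Agent.X112.WE.E2
import Pool.Agent.X112.WD.Bk

/-! # The block bound for a family of affine subspaces -/

set_option autoImplicit false

namespace Pool.Agent.X112.WE

open MeasureTheory Filter Topology Module
open SG (ord NZ)
open Pool.Agent.Y743.CL (rc XK G er VS VS_nonneg)
open Pool.Agent.X112.WD (Df gp rho E small all_bounds Fam sq3)

theorem tblockE (ε : ℝ) (hε : 0 < ε) (hε1 : ε ≤ 1) (θ : ℝ) (hθ : 0 < θ) : ∃ δ : ℝ, 0 < δ ∧ ∀ h : ℕ, 1 ≤ h →
    ∀ᶠ L : ℕ in atTop, ∃ T1 : ℝ, 10 ≤ T1 ∧ ∀ T : ℝ, T1 ≤ T → ∀ (K : ℕ) (V : Fin K → Submodule ℝ (Fin L → ℝ))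
      (p : Fin K → Fin L → ℝ), (K : ℝ) ≤ Real.exp ((L : ℝ) ^ δ) →
      (∀ q, (finrank ℝ (V q) : ℝ) ≤ (L : ℝ) ^ (1 - ε)) → ∃ D : Set ℝ, MeasurableSet D ∧ D ⊆ Set.Icc T (2 * T) ∧
        volume.real D ≤ θ * T ∧ ∀ t ∈ Set.Icc T (2 * T), ∀ i : ℕ, 1 ≤ i → i ≤ h →
          (∃ q, ∃ y ∈ V q, ∃ a b : ℝ,
            ∑ j : Fin L, (gp T (i + j + 1) t - (a + b * p q j + y j)) ^ 2 ≤ ε / 2000 * (L * Real.log L)) →
          t ∈ D := by
  obtain ⟨lam', C', T0', hlam', hC', hT0', hVS', hE', hH'⟩ := all_bounds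
  obtain ⟨lam, C, T0, hlam, hC, hT0, hVS, hmom⟩ := moments_k
  obtain ⟨C2, hC2, hmem⟩ := member lam C T0 hlam hC hVS (by
    intro K
    obtain ⟨T1, hT1, h1⟩ := hmom K
    exact ⟨T1, hT1, fun T hT κ hκ hκ16 hκT y hy => (h1 T hT κ hκ hκ16 hκT y hy).2⟩)
  obtain ⟨δ, hδ⟩ : ∃ δ : ℝ, δ = min (1 / 4) (min (θ * ε / (1024000 * C)) (ε / (1000 * C2))) := ⟨_, rfl⟩
  have hδ0 : 0 < δ := by rw [hδ]; positivity
  have hδ1 : δ ≤ 1 / 4 := by rw [hδ]; exact min_le_left _ _
  have hδ2 : 4 * C * δ ≤ θ * ε / 256000 := by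
    have h1 : δ ≤ θ * ε / (1024000 * C) := by rw [hδ]; exact (min_le_right _ _).trans (min_le_left _ _)
    calc 4 * C * δ ≤ 4 * C * (θ * ε / (1024000 * C)) := mul_le_mul_of_nonneg_left h1 (by positivity)
      _ = θ * ε / 256000 := by field_simp; norm_num
  have hδ3 : 2 * C2 * δ ≤ ε / 500 := by
    have h1 : δ ≤ ε / (1000 * C2) := by rw [hδ]; exact (min_le_right _ _).trans (min_le_right _ _)
    calc 2 * C2 * δ ≤ 2 * C2 * (ε / (1000 * C2)) := mul_le_mul_of_nonneg_left h1 (by positivity)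
      _ = ε / 500 := by field_simp; norm_num
  obtain ⟨c1, hc1⟩ : ∃ c1 : ℝ, c1 = 3 * ε / (16000 * C) := ⟨_, rfl⟩
  have hc10 : 0 < c1 := by rw [hc1]; positivity
  refine ⟨δ / 2, by positivity, fun h hh => ?_⟩
  have hh0 : (1 : ℝ) ≤ h := by exact_mod_cast hh
  filter_upwards [small lam' C' hC' hE' hH' (ε / 32000) (θ / 4) (by positivity) (by positivity) h,
    num_E ε θ C C2 c1 δ h hε hε1 hθ hC hC2 hc10 hh hδ0 hδ1 hδ2 hδ3, hmem ε hε hε1, eventually_ge_atTop 2]
    with L hS hnum hM hL2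
  obtain ⟨T1, hT1, hS⟩ := hS
  obtain ⟨m, hm4, hmL, hmL2, hm500, hnoise, hfam⟩ := hnum
  obtain ⟨T2, hT2, hM⟩ := hM m hm4 hmL hmL2 hm500
  rw [← hc1] at hM
  obtain ⟨T3, hT3, hmom⟩ := hmom (L + h + 1)
  have hL2' : (2 : ℝ) ≤ L := by exact_mod_cast hL2
  have hlL : 0 < Real.log (L : ℝ) := Real.log_pos (by linarith)
  have hm4' : (4 : ℝ) ≤ m := by exact_mod_cast hm4
  have hm0 : (0 : ℝ) < m := by linarith
  have hev : ∀ᶠ T : ℝ in atTop, 2 * Real.log T + 7 ≤ min (1 / 2) (θ / 4) * T := by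
    have hmin : 0 < min (1 / 2) (θ / 4) := by positivity
    have h1 : (fun T : ℝ => 2 * Real.log T + 7) =o[atTop] fun T : ℝ => T :=
      (Real.isLittleO_log_id_atTop.const_mul_left 2).add (Asymptotics.isLittleO_const_id_atTop _)
    have h2 := h1.bound hmin
    filter_upwards [h2, eventually_ge_atTop 1] with T hT hT1
    rw [Real.norm_of_nonneg (by linarith : (0 : ℝ) ≤ T)] at hT
    exact (le_abs_self _).trans hT
  obtain ⟨T4, hT4⟩ := (hev.and (Real.tendsto_log_atTop.eventually_ge_atTop (32 * (m : ℝ)))).exists_forall_of_atTop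
  refine ⟨max (max T1 T2) (max T3 T4), hT1.trans ((le_max_left _ _).trans (le_max_left _ _)), fun T hT K V p hK hV => ?_⟩
  have hTT1 : T1 ≤ T := ((le_max_left _ _).trans (le_max_left _ _)).trans hT
  have hTT2 : T2 ≤ T := ((le_max_right _ _).trans (le_max_left _ _)).trans hT
  have hTT3 : T3 ≤ T := ((le_max_left _ _).trans (le_max_right _ _)).trans hT
  obtain ⟨g1, g2⟩ := hT4 T (((le_max_right _ _).trans (le_max_right _ _)).trans hT)
  have hT10 : 10 ≤ T := hT1.trans hTT1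
  have hT1' : 1 < T := by linarith
  obtain ⟨B, hBm, hBs, hBv, hB⟩ := hS T hTT1
  have hg1 : 2 * Real.log T + 7 ≤ 1 / 2 * T :=
    g1.trans (mul_le_mul_of_nonneg_right (min_le_left _ _) (by linarith))
  have hg2 : 2 * Real.log T + 7 ≤ θ / 4 * T :=
    g1.trans (mul_le_mul_of_nonneg_right (min_le_right _ _) (by linarith))
  obtain ⟨A, hA⟩ : ∃ A : ℝ, A = T + Real.log T := ⟨_, rfl⟩
  obtain ⟨A', hA'⟩ : ∃ A' : ℝ, A' = 2 * T - Real.log T - 7 := ⟨_, rfl⟩
  have hlogT : 0 < Real.log T := Real.log_pos hT1'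
  have hAA : A ≤ A' := by rw [hA, hA']; linarith
  have hAT : A' - A ≤ T := by rw [hA, hA']; linarith
  obtain ⟨κ, hκ⟩ : ∃ κ : ℝ, κ = 1 / (4 * m) := ⟨_, rfl⟩
  have hκ0 : 0 < κ := by rw [hκ]; positivity
  have hκ16 : κ ≤ 1 / 16 := by
    rw [hκ]
    apply one_div_le_one_div_of_le (by norm_num)
    linarith
  have hκT : 8 ≤ κ * Real.log T := by
    rw [hκ, div_mul_eq_mul_div, le_div_iff₀ (by positivity)]
    linarith
  have h1κ : 1 / κ = 4 * m := by rw [hκ, one_div_one_div]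
  have hmE : ∀ y : ℕ, y ≤ L + h + 1 → ∫ t in Set.Icc A A', Ek lam κ T y t ^ 2 ≤ C * (1 + Real.log (4 * m)) * T := by
    intro y hy
    have h1 := (hmom T hTT3 κ hκ0 hκ16 hκT y hy).1
    rw [h1κ, ← hA, ← hA'] at h1
    exact h1
  rw [← hA, ← hA'] at hB
  obtain ⟨η, hη⟩ : ∃ η : ℝ, η = L * Real.log L := ⟨_, rfl⟩
  have hη0 : 0 < η := by rw [hη]; positivity
  simp only [← hη] at hnoise hB hM ⊢
  -- the noise
  obtain ⟨N, hN⟩ : ∃ N : Set ℝ, N = Set.Icc A A' ∩
    {t | ε / 32000 * η < ∑ y ∈ Finset.Icc 1 (L + h + 1), Ek lam κ T y t ^ 2} := ⟨_, rfl⟩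
  have hNm : MeasurableSet N := by
    rw [hN]
    refine measurableSet_Icc.inter (measurableSet_lt measurable_const ?_)
    exact Finset.measurable_sum _ fun y _ => (Ek_meas lam κ T y).pow_const 2
  have hNv : volume.real N ≤ θ / 8 * T := by
    have h1 : ε / 32000 * η * volume.real N ≤ ∫ t in Set.Icc A A', ∑ y ∈ Finset.Icc 1 (L + h + 1), Ek lam κ T y t ^ 2 := by
      have hint : IntegrableOn (fun t => ∑ y ∈ Finset.Icc 1 (L + h + 1), Ek lam κ T y t ^ 2) (Set.Icc A A') :=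
        integrable_finsetSum _ fun y _ => Ek_int hT1' lam κ y A A'
      have h2 := mul_meas_ge_le_integral_of_nonneg (μ := volume.restrict (Set.Icc A A'))
        (f := fun t => ∑ y ∈ Finset.Icc 1 (L + h + 1), Ek lam κ T y t ^ 2)
        (ae_of_all _ fun t => Finset.sum_nonneg fun _ _ => sq_nonneg _) hint (ε / 32000 * η)
      refine le_trans (mul_le_mul_of_nonneg_left ?_ (by positivity)) h2
      have hfin : (volume.restrict (Set.Icc A A')) {t | ε / 32000 * η ≤ ∑ y ∈ Finset.Icc 1 (L + h + 1), Ek lam κ T y t ^ 2} ≠ ⊤ :=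
        measure_ne_top _ _
      have e : (volume.restrict (Set.Icc A A')).real N = volume.real N := by
        rw [measureReal_def, Measure.restrict_apply hNm, measureReal_def]
        congr 2
        rw [hN]
        ext t
        simp only [Set.mem_inter_iff]
        tauto
      rw [← e]
      refine measureReal_mono ?_ hfin
      intro t ht
      rw [hN] at ht
      have h9 : ε / 32000 * η < ∑ y ∈ Finset.Icc 1 (L + h + 1), Ek lam κ T y t ^ 2 := ht.2
      exact h9.le
    rw [integral_finsetSum _ fun y _ => Ek_int hT1' lam κ y A A'] at h1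
    have h3 : ∑ y ∈ Finset.Icc 1 (L + h + 1), ∫ t in Set.Icc A A', Ek lam κ T y t ^ 2 ≤
        ((L : ℝ) + h + 1) * (C * (1 + Real.log (4 * m)) * T) := by
      refine (Finset.sum_le_sum fun y hy => hmE y (Finset.mem_Icc.1 hy).2).trans (le_of_eq ?_)
      rw [Finset.sum_const, Nat.card_Icc, nsmul_eq_mul, Nat.add_sub_cancel]
      push_cast
      ring
    have h4 : ((L : ℝ) + h + 1) * (C * (1 + Real.log (4 * m)) * T) ≤ ε / 32000 * η * (θ / 8 * T) := by
      have := mul_le_mul_of_nonneg_right hnoise (by linarith : 0 ≤ T)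
      calc ((L : ℝ) + h + 1) * (C * (1 + Real.log (4 * m)) * T) =
            ((L : ℝ) + h + 1) * (C * (1 + Real.log (4 * m))) * T := by ring
        _ ≤ θ / 8 * (ε / 32000 * η) * T := this
        _ = _ := by ring
    exact le_of_mul_le_mul_left (h1.trans (h3.trans h4)) (by positivity)
  -- the members
  choose r s u w hF hj hVu hpu hvol using fun (i : ℕ) (q : Fin K) => hM T hTT2 A A' hAA hAT (V q) (p q) (hV q) i
  obtain ⟨P, hP⟩ : ∃ P : ℕ → Fin K → Set ℝ, P = fun i q => Set.Icc A A' ∩ {t | ∑ k, (∑ j : Fin L, u i q k j *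
    (gk lam (1 / (4 * m)) T (i + j + 1) t).re) ^ 2 ≤ ε / 800 * η} := ⟨_, rfl⟩
  have hPm : ∀ i q, MeasurableSet (P i q) := by
    intro i q
    rw [hP]
    refine measurableSet_Icc.inter (measurableSet_le (Continuous.measurable ?_) measurable_const)
    refine continuous_finsetSum _ fun k _ => Continuous.pow (continuous_finsetSum _ fun j _ => ?_) 2
    exact continuous_const.mul (Complex.continuous_re.comp (gk_cont lam _ T _))
  have hPv : ∀ i q, volume.real (P i q) ≤ T * (4 * Real.exp (-(c1 * m))) := by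
    intro i q
    rw [hP]
    exact hvol i q
  have hUv : volume.real (⋃ i ∈ Finset.Icc 1 h, ⋃ q ∈ (Finset.univ : Finset (Fin K)), P i q) ≤ θ / 8 * T := by
    have b4 := measureReal_biUnion_finset_le (μ := volume) (Finset.Icc 1 h)
      (fun i => ⋃ q ∈ (Finset.univ : Finset (Fin K)), P i q)
    refine b4.trans ?_
    have b5 : ∀ i ∈ Finset.Icc 1 h, volume.real (⋃ q ∈ (Finset.univ : Finset (Fin K)), P i q) ≤
        Real.exp ((L : ℝ) ^ (δ / 2)) * (T * (4 * Real.exp (-(c1 * m)))) := by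
      intro i _
      refine (measureReal_biUnion_finset_le (μ := volume) (Finset.univ : Finset (Fin K)) (P i)).trans ?_
      refine (Finset.sum_le_sum fun q _ => hPv i q).trans ?_
      rw [Finset.sum_const, Finset.card_univ, Fintype.card_fin, nsmul_eq_mul]
      exact mul_le_mul_of_nonneg_right hK (by positivity)
    refine (Finset.sum_le_sum b5).trans ?_
    rw [Finset.sum_const, Nat.card_Icc, nsmul_eq_mul, Nat.add_sub_cancel]
    have b6 := mul_le_mul_of_nonneg_right hfam (by linarith : 0 ≤ T)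
    linarith
  refine ⟨B ∪ ((Set.Icc T A ∪ Set.Icc A' (2 * T)) ∪ (N ∪ ⋃ i ∈ Finset.Icc 1 h, ⋃ q ∈ (Finset.univ : Finset (Fin K)), P i q)),
    ?_, ?_, ?_, ?_⟩
  · exact hBm.union ((measurableSet_Icc.union measurableSet_Icc).union
      (hNm.union (Finset.measurableSet_biUnion _ fun i _ => Finset.measurableSet_biUnion _ fun q _ => hPm i q)))
  · rintro t (ht | (ht | ht) | ht | ht)
    · exact ⟨by linarith [(hBs ht).1], by linarith [(hBs ht).2]⟩
    · exact ⟨ht.1, by rw [hA] at ht; linarith [ht.2]⟩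
    · exact ⟨by rw [hA'] at ht; linarith [ht.1], ht.2⟩
    · rw [hN] at ht
      obtain ⟨⟨h1, h2⟩, -⟩ := ht
      rw [hA] at h1
      rw [hA'] at h2
      exact ⟨by linarith, by linarith⟩
    · simp only [Set.mem_iUnion] at ht
      obtain ⟨i, -, q, -, ht⟩ := ht
      rw [hP] at ht
      obtain ⟨⟨h1, h2⟩, -⟩ := ht
      rw [hA] at h1
      rw [hA'] at h2
      exact ⟨by linarith, by linarith⟩
  · have b1 := measureReal_union_le (μ := volume) B ((Set.Icc T A ∪ Set.Icc A' (2 * T)) ∪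
      (N ∪ ⋃ i ∈ Finset.Icc 1 h, ⋃ q ∈ (Finset.univ : Finset (Fin K)), P i q))
    have b2 := measureReal_union_le (μ := volume) (Set.Icc T A ∪ Set.Icc A' (2 * T))
      (N ∪ ⋃ i ∈ Finset.Icc 1 h, ⋃ q ∈ (Finset.univ : Finset (Fin K)), P i q)
    have b2' := measureReal_union_le (μ := volume) N (⋃ i ∈ Finset.Icc 1 h, ⋃ q ∈ (Finset.univ : Finset (Fin K)), P i q)
    have b3 := measureReal_union_le (μ := volume) (Set.Icc T A) (Set.Icc A' (2 * T))
    rw [Real.volume_real_Icc_of_le (by rw [hA]; linarith), Real.volume_real_Icc_of_le (by rw [hA']; linarith)] at b3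
    have b6 : A - T + (2 * T - A') ≤ θ / 4 * T := by rw [hA, hA']; linarith
    have b7 : 0 ≤ θ * T := by positivity
    linarith
  · intro t ht i hi1 hih hex
    obtain ⟨q, y, hy, a, b, hya⟩ := hex
    by_contra hcon
    rw [Set.mem_union, Set.mem_union, Set.mem_union, Set.mem_union, not_or, not_or, not_or, not_or] at hcon
    obtain ⟨n1, ⟨n2, n3⟩, n5, n4⟩ := hcon
    simp only [Set.mem_iUnion, not_exists] at n4
    have htI : t ∈ Set.Icc A A' := by
      constructor
      · by_contra hc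
        push Not at hc
        exact n2 ⟨ht.1, hc.le⟩
      · by_contra hc
        push Not at hc
        exact n3 ⟨hc.le, ht.2⟩
    obtain ⟨hr, -⟩ := hB t htI n1
    have he : ∑ y ∈ Finset.Icc 1 (L + h + 1), Ek lam κ T y t ^ 2 ≤ ε / 32000 * η := by
      by_contra hc
      push Not at hc
      apply n5
      rw [hN]
      exact ⟨htI, hc⟩
    apply n4 i (Finset.mem_Icc.2 ⟨hi1, hih⟩) q (Finset.mem_univ q)
    rw [hP]
    refine ⟨htI, ?_⟩
    rw [← hκ]
    -- the sums over the positions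
    have hsub : ∀ f : ℕ → ℝ, (∀ y, 0 ≤ f y) → ∑ j : Fin L, f (i + j + 1) ≤ ∑ y ∈ Finset.Icc 1 (L + h + 1), f y := by
      intro f hf
      have e1 : ∑ j : Fin L, f (i + j + 1) = ∑ y ∈ (Finset.univ : Finset (Fin L)).image (fun j : Fin L => i + (j : ℕ) + 1), f y := by
        rw [Finset.sum_image]
        intro x _ y _ hxy
        simp only at hxy
        exact Fin.ext (by omega)
      rw [e1]
      refine Finset.sum_le_sum_of_subset_of_nonneg ?_ fun _ _ _ => hf _
      intro y hy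
      rw [Finset.mem_image] at hy
      obtain ⟨j, -, rfl⟩ := hy
      rw [Finset.mem_Icc]
      have := j.2
      omega
    have hr' := (hsub (fun y => rho T y t ^ 2) (fun _ => sq_nonneg _)).trans hr
    have he' := (hsub (fun y => Ek lam κ T y t ^ 2) (fun _ => sq_nonneg _)).trans he
    -- Bessel
    have hbes : ∀ x : Fin L → ℝ, ∑ k, (∑ j, u i q k j * x j) ^ 2 ≤ ∑ j, x j ^ 2 := by
      intro x
      have h1 := (hF i q).par x
      have h2 : 0 ≤ ∑ l, (∑ j, w i q l j * x j) ^ 2 := by positivity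
      linarith
    have b1 := hbes (fun j => gp T (i + j + 1) t - (a + b * p q j + y j))
    have b2 := hbes (fun j => Ek lam κ T (i + j + 1) t)
    have b3 := hbes (fun j => rho T (i + j + 1) t)
    have hk : ∀ k, ∑ j : Fin L, u i q k j * (gk lam κ T (i + j + 1) t).re =
        (∑ j : Fin L, u i q k j * (gp T (i + j + 1) t - (a + b * p q j + y j))) +
        (∑ j : Fin L, u i q k j * Ek lam κ T (i + j + 1) t) -
        ∑ j : Fin L, u i q k j * rho T (i + j + 1) t := by
      intro k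
      have h1 : ∑ j : Fin L, u i q k j * (gk lam κ T (i + j + 1) t).re =
          ∑ j : Fin L, ((u i q k j * (gp T (i + j + 1) t - (a + b * p q j + y j))) + (u i q k j * Ek lam κ T (i + j + 1) t) -
          (u i q k j * rho T (i + j + 1) t) + (a - (i + 1)) * u i q k j - u i q k j * ((j : ℕ) : ℝ) +
          b * (u i q k j * p q j) + u i q k j * y j) := by
        refine Finset.sum_congr rfl fun j _ => ?_
        unfold rho Ek
        push_cast
        ring
      rw [h1]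
      simp only [Finset.sum_add_distrib, Finset.sum_sub_distrib]
      rw [← Finset.mul_sum, ← Finset.mul_sum, (hF i q).sum0 k, hj i q k, hVu i q k y hy, hpu i q k]
      ring
    have hfin : ∀ k, (∑ j : Fin L, u i q k j * (gk lam κ T (i + j + 1) t).re) ^ 2 ≤
        2 * (∑ j : Fin L, u i q k j * (gp T (i + j + 1) t - (a + b * p q j + y j))) ^ 2 +
        4 * (∑ j : Fin L, u i q k j * Ek lam κ T (i + j + 1) t) ^ 2 +
        4 * (∑ j : Fin L, u i q k j * rho T (i + j + 1) t) ^ 2 := by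
      intro k
      rw [hk k]
      exact sq3 _ _ _
    refine (Finset.sum_le_sum fun k _ => hfin k).trans ?_
    simp only [Finset.sum_add_distrib, ← Finset.mul_sum]
    linarith

end Pool.Agent.X112.WE
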