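import Pool.Agent.X112.GS.Pairs
import Pool.Agent.X112.GS.Fin

/-! # Long blocks are seldom very long -/

set_option autoImplicit false

open Filter Finset

namespace Pool.Agent.X112.WE

open SG (ord NZ)
open Pool.Agent.X112.GS (yy yy_le yy_mono few_init)

lemma tele (g : ℕ → ℝ) (L a : ℕ) : ∀ b, a ≤ b → ∑ n ∈ Ico a b, (g (n + L) - g n) =
    ∑ i ∈ range L, g (b + i) - ∑ i ∈ range L, g (a + i) := by
  intro b hb
  induction b, hb using Nat.le_induction with
  | base => simp
  | succ b hb ih =>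
    rw [Finset.sum_Ico_succ_top hb, ih]
    have h1 := Finset.sum_range_succ (fun i => g (b + i)) L
    have h2 := Finset.sum_range_succ' (fun i => g (b + i)) L
    rw [h1, add_zero] at h2
    have h3 : ∑ i ∈ range L, g (b + (i + 1)) = ∑ i ∈ range L, g (b + 1 + i) := by
      refine Finset.sum_congr rfl fun i _ => ?_
      rw [show b + (i + 1) = b + 1 + i by ring]
    rw [h3] at h2
    linarith

theorem blk_size (θ : ℝ) (hθ : 0 < θ) : ∀ᶠ L : ℕ in atTop, ∀ᶠ N : ℕ in atTop, ∀ P : ℕ → Prop, ∀ _ : DecidablePred P,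
    (∀ n, P n → (L : ℝ) ^ 2 < (ord (n + L) - ord n) * Real.log (ord n) / (2 * Real.pi)) →
    (((Icc 1 N).filter P).card : ℝ) ≤ θ * N := by
  have hpi := Real.pi_pos
  obtain ⟨n1, hn1⟩ := yy_mono
  have hord : Tendsto ord atTop atTop := Pool.Agent.Y743.LR.ord_tendsto
  obtain ⟨n2, hn2⟩ := (hord.eventually_ge_atTop 1).exists_forall_of_atTop
  obtain ⟨n3, hn3⟩ : ∃ n3 : ℕ, n3 = max n1 (max n2 1) := ⟨_, rfl⟩
  have h31 : n1 ≤ n3 := by rw [hn3]; exact le_max_left _ _
  have h32 : n2 ≤ n3 := by rw [hn3]; exact (le_max_left _ _).trans (le_max_right _ _)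
  have h33 : 1 ≤ n3 := by rw [hn3]; exact (le_max_right _ _).trans (le_max_right _ _)
  filter_upwards [tendsto_natCast_atTop_atTop.eventually_ge_atTop (32 / θ), eventually_ge_atTop 1] with L hL hL1
  have hL1' : (1 : ℝ) ≤ L := by exact_mod_cast hL1
  have hyy := yy_le
  obtain ⟨n4, hn4⟩ := hyy.exists_forall_of_atTop
  filter_upwards [few_init n3 (θ / 2) (by positivity), eventually_ge_atTop (L + 1 + n3 + n4)] with N hN1 hN2 P _ hP
  have hN2' : ((L + 1 + n3 + n4 : ℕ) : ℝ) ≤ N := by exact_mod_cast hN2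
  push_cast at hN2'
  have h30 : (0 : ℝ) ≤ n3 := Nat.cast_nonneg _
  have h40 : (0 : ℝ) ≤ n4 := Nat.cast_nonneg _
  -- splitting
  have hsub : (Icc 1 N).filter P ⊆ (Ico n3 (N + 1)).filter P ∪ range n3 := by
    intro n hn
    rw [mem_filter, mem_Icc] at hn
    rw [mem_union, mem_filter, mem_Ico, mem_range]
    by_cases h : n3 ≤ n
    · left
      exact ⟨⟨h, by omega⟩, hn.2⟩
    · right
      omega
  have hc := (card_le_card hsub).trans (card_union_le _ _)
  rw [card_range] at hc
  have hc' : (((Icc 1 N).filter P).card : ℝ) ≤ (((Ico n3 (N + 1)).filter P).card : ℝ) + n3 := by exact_mod_cast hc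
  have hpos : ∀ n, n3 ≤ n → 0 ≤ yy n := by
    intro n hn
    have := hn2 n (h32.trans hn)
    have h2 := Real.log_nonneg this
    unfold yy
    positivity
  have hle : ∀ n, n3 ≤ n → (ord (n + L) - ord n) * Real.log (ord n) / (2 * Real.pi) ≤ yy (n + L) - yy n := by
    intro n hn
    have a1 := hn2 n (h32.trans hn)
    have a2 : ord n ≤ ord (n + L) := SG.ord_mono (by omega) (by omega)
    unfold yy
    rw [← sub_div]
    apply div_le_div_of_nonneg_right _ (by positivity)
    have a3 : Real.log (ord n) ≤ Real.log (ord (n + L)) := Real.log_le_log (by linarith) a2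
    have a4 := mul_le_mul_of_nonneg_left a3 (by linarith : 0 ≤ ord (n + L))
    linarith
  have hM : (L : ℝ) ^ 2 * (((Ico n3 (N + 1)).filter P).card : ℝ) ≤ 8 * L * (N + 1 + L) := by
    calc (L : ℝ) ^ 2 * (((Ico n3 (N + 1)).filter P).card : ℝ) = ∑ n ∈ (Ico n3 (N + 1)).filter P, (L : ℝ) ^ 2 := by
          rw [Finset.sum_const, nsmul_eq_mul, mul_comm]
      _ ≤ ∑ n ∈ (Ico n3 (N + 1)).filter P, (yy (n + L) - yy n) := by
          refine Finset.sum_le_sum fun n hn => ?_
          rw [mem_filter, mem_Ico] at hn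
          exact (hP n hn.2).le.trans (hle n hn.1.1)
      _ ≤ ∑ n ∈ Ico n3 (N + 1), (yy (n + L) - yy n) := by
          refine Finset.sum_le_sum_of_subset_of_nonneg (filter_subset _ _) fun n hn _ => ?_
          rw [mem_Ico] at hn
          have := hn1 n (n + L) (h31.trans hn.1) (by omega)
          linarith
      _ = ∑ i ∈ range L, yy (N + 1 + i) - ∑ i ∈ range L, yy (n3 + i) := tele yy L n3 (N + 1) (by omega)
      _ ≤ ∑ i ∈ range L, (8 * (N + 1 + L : ℝ)) := by
          have b1 : 0 ≤ ∑ i ∈ range L, yy (n3 + i) := Finset.sum_nonneg fun i _ => hpos _ (by omega)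
          have b2 : ∑ i ∈ range L, yy (N + 1 + i) ≤ ∑ i ∈ range L, (8 * (N + 1 + L : ℝ)) := by
            refine Finset.sum_le_sum fun i hi => ?_
            rw [mem_range] at hi
            refine (hn4 (N + 1 + i) (by omega)).trans ?_
            push_cast
            have : (i : ℝ) ≤ L := by exact_mod_cast hi.le
            linarith
          linarith
      _ = 8 * L * (N + 1 + L) := by
          rw [Finset.sum_const, card_range, nsmul_eq_mul]
          ring
  have hfin : (((Ico n3 (N + 1)).filter P).card : ℝ) ≤ θ / 2 * N := by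
    have c1 : 8 * (L : ℝ) * (N + 1 + L) ≤ L ^ 2 * (θ / 2 * N) := by
      rw [div_le_iff₀ hθ] at hL
      have c2 : (N : ℝ) + 1 + L ≤ 2 * N := by linarith
      have c3 : 8 * (L : ℝ) * (N + 1 + L) ≤ 8 * L * (2 * N) := mul_le_mul_of_nonneg_left c2 (by positivity)
      have c4 : (L : ℝ) * N * 32 ≤ L * N * (L * θ) := mul_le_mul_of_nonneg_left hL (by positivity)
      nlinarith
    exact le_of_mul_le_mul_left (hM.trans c1) (by positivity)
  linarith

end Pool.Agent.X112.WE
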