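import Pool.Agent.X112.WE.F
import Pool.Agent.X112.WE.R3

/-! # Few patterns do not describe the blocks of spacings -/

set_option autoImplicit false

namespace Pool.Agent.X112.WE

open Filter Topology Module
open SG (ord NZ)
open Pool.Agent.X112.GS (yy)

lemma conv_one {a b l2 : ℝ} (ha : 4 ≤ a) (hab : a ≤ b) (hl : 2 * l2 ≤ Real.log a) (hl0 : 0 ≤ l2)
    (hx : (b - a) * Real.log a / (2 * Real.pi) ≤ l2) :
    |b * Real.log b / (2 * Real.pi) - a * Real.log a / (2 * Real.pi) - (b - a) * Real.log a / (2 * Real.pi)| ≤ 1 := by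
  have hpi := Real.pi_pos
  have hpi4 := Real.pi_le_four
  have hla : 0 < Real.log a := Real.log_pos (by linarith)
  have h1 : (b - a) * Real.log a ≤ 2 * Real.pi * l2 := by
    rw [div_le_iff₀ (by positivity)] at hx
    linarith
  have h2 : (b - a) * Real.log a ≤ Real.pi * Real.log a := by
    have := mul_le_mul_of_nonneg_left hl hpi.le
    linarith
  have h3 : b - a ≤ Real.pi := le_of_mul_le_mul_right h2 hla
  have h4 : b ≤ 2 * a := by linarith
  have hb0 : 0 < b := by linarith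
  have e : b * Real.log b / (2 * Real.pi) - a * Real.log a / (2 * Real.pi) - (b - a) * Real.log a / (2 * Real.pi) =
      b * (Real.log b - Real.log a) / (2 * Real.pi) := by ring
  have h5 : 0 ≤ Real.log b - Real.log a := by
    have := Real.log_le_log (by linarith) hab
    linarith
  have h6 : Real.log b - Real.log a ≤ (b - a) / a := by
    rw [← Real.log_div hb0.ne' (by linarith)]
    refine (Real.log_le_sub_one_of_pos (by positivity)).trans (le_of_eq ?_)
    field_simp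
  rw [e, abs_of_nonneg (by positivity), div_le_one (by positivity)]
  calc b * (Real.log b - Real.log a) ≤ (2 * a) * ((b - a) / a) := mul_le_mul h4 h6 h5 (by linarith)
    _ = 2 * (b - a) := by field_simp
    _ ≤ 2 * Real.pi := by linarith

theorem pat_fin (θ : ℝ) (hθ : 0 < θ) : ∃ δ : ℝ, 0 < δ ∧
    ∀ᶠ L : ℕ in atTop, ∀ᶠ N : ℕ in atTop, ∀ (K : ℕ) (v : Fin K → ℕ → ℝ), (K : ℝ) ≤ Real.exp ((L : ℝ) ^ δ) →
      ({n : ℕ | 1 ≤ n ∧ n ≤ N ∧ ∃ q,
        ∑ j ∈ Finset.range L, (yy (n + (j + 1)) - yy n - v q j) ^ 2 ≤ 1 / 5000 * (L * Real.log L)}.ncard : ℝ) ≤ θ * N := by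
  classical
  have hpi := Real.pi_pos
  obtain ⟨δ, hδ, hsb⟩ := sball_fin 1 (by norm_num) le_rfl (θ / 4) (by positivity)
  refine ⟨δ, hδ, ?_⟩
  have hlog : Tendsto (fun L : ℕ => Real.log (L : ℝ)) atTop atTop :=
    Real.tendsto_log_atTop.comp tendsto_natCast_atTop_atTop
  have hord : Tendsto ord atTop atTop := Pool.Agent.Y743.LR.ord_tendsto
  have hlord : Tendsto (fun n => Real.log (ord n)) atTop atTop := Real.tendsto_log_atTop.comp hord
  filter_upwards [hsb, blk_size (θ / 4) (by positivity), hlog.eventually_ge_atTop 20000, eventually_ge_atTop 1]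
    with L hsb hblk hlL hL1
  have hL1' : (1 : ℝ) ≤ L := by exact_mod_cast hL1
  obtain ⟨n0, hn0⟩ := ((hord.eventually_ge_atTop 4).and
    (hlord.eventually_ge_atTop (2 * (L : ℝ) ^ 2))).exists_forall_of_atTop
  filter_upwards [hsb, hblk, Pool.Agent.X112.GS.few_init n0 (θ / 4) (by positivity), eventually_ge_atTop 1]
    with N hsb hblk hN0 hN1 K v hK
  have h1 := hsb K (fun _ => ⊥) (fun q j => v q j) hK (fun q => by rw [finrank_bot]; push_cast; positivity)
  obtain ⟨S2, hS2⟩ : ∃ S2 : Set ℕ, S2 = {n : ℕ | 1 ≤ n ∧ n ≤ N ∧ ∃ q : Fin K, ∃ y ∈ (⊥ : Submodule ℝ (Fin L → ℝ)),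
        ∑ j : Fin L, ((ord (n + j + 1) - ord n) * Real.log (ord n) / (2 * Real.pi) -
        (v q j + y j)) ^ 2 ≤ 1 / 2000 * (L * Real.log L)} := ⟨_, rfl⟩
  rw [← hS2] at h1
  have h2 := hblk (fun n => (L : ℝ) ^ 2 < (ord (n + L) - ord n) * Real.log (ord n) / (2 * Real.pi))
    (fun n => Classical.propDecidable _) (fun n hn => hn)
  rw [← Pool.Agent.X112.GS.nc] at h2
  obtain ⟨S1, hS1⟩ : ∃ S1 : Set ℕ, S1 = {n : ℕ | 1 ≤ n ∧ n ≤ N ∧
    (L : ℝ) ^ 2 < (ord (n + L) - ord n) * Real.log (ord n) / (2 * Real.pi)} := ⟨_, rfl⟩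
  rw [← hS1] at h2
  have hf1 : S1.Finite := by rw [hS1]; exact (Set.finite_Icc 1 N).subset fun n hn => ⟨hn.1, hn.2.1⟩
  have hf2 : S2.Finite := by rw [hS2]; exact (Set.finite_Icc 1 N).subset fun n hn => ⟨hn.1, hn.2.1⟩
  have hfI : (Set.Iio n0).Finite := Set.finite_Iio n0
  have hsub : {n : ℕ | 1 ≤ n ∧ n ≤ N ∧ ∃ q,
        ∑ j ∈ Finset.range L, (yy (n + (j + 1)) - yy n - v q j) ^ 2 ≤ 1 / 5000 * (L * Real.log L)} ⊆
      (S1 ∪ S2) ∪ Set.Iio n0 := by
    rintro n ⟨hn1, hnN, q, hq⟩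
    by_contra hcon
    rw [Set.mem_union, Set.mem_union, not_or, not_or] at hcon
    obtain ⟨⟨hnS1, hnS2⟩, hnI⟩ := hcon
    rw [Set.mem_Iio, not_lt] at hnI
    obtain ⟨g1, g2⟩ := hn0 n hnI
    have hlogn : 0 < Real.log (ord n) := Real.log_pos (by linarith)
    have hsize : (ord (n + L) - ord n) * Real.log (ord n) / (2 * Real.pi) ≤ (L : ℝ) ^ 2 := by
      by_contra hc
      push Not at hc
      apply hnS1
      rw [hS1]
      exact ⟨hn1, hnN, hc⟩
    apply hnS2
    rw [hS2]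
    refine ⟨hn1, hnN, q, 0, Submodule.zero_mem _, ?_⟩
    have hterm : ∀ j ∈ Finset.range L, ((ord (n + j + 1) - ord n) * Real.log (ord n) / (2 * Real.pi) - (v q j + 0)) ^ 2 ≤
        2 * (yy (n + (j + 1)) - yy n - v q j) ^ 2 + 2 := by
      intro j hj
      rw [Finset.mem_range] at hj
      have a1 : ord n ≤ ord (n + (j + 1)) := SG.ord_mono hn1 (by omega)
      have a2 : ord (n + (j + 1)) ≤ ord (n + L) := SG.ord_mono (by omega) (by omega)
      have a3 : (ord (n + (j + 1)) - ord n) * Real.log (ord n) / (2 * Real.pi) ≤ (L : ℝ) ^ 2 := by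
        refine le_trans ?_ hsize
        apply div_le_div_of_nonneg_right _ (by positivity)
        exact mul_le_mul_of_nonneg_right (by linarith) hlogn.le
      have a4 := conv_one g1 a1 g2 (by positivity) a3
      rw [show n + j + 1 = n + (j + 1) by ring]
      obtain ⟨X, hX⟩ : ∃ X : ℝ, X = (ord (n + (j + 1)) - ord n) * Real.log (ord n) / (2 * Real.pi) := ⟨_, rfl⟩
      have e1 : ord (n + (j + 1)) * Real.log (ord (n + (j + 1))) / (2 * Real.pi) -
          ord n * Real.log (ord n) / (2 * Real.pi) = yy (n + (j + 1)) - yy n := rfl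
      rw [e1, ← hX] at a4
      rw [← hX]
      obtain ⟨Y, hY⟩ : ∃ Y : ℝ, Y = yy (n + (j + 1)) - yy n := ⟨_, rfl⟩
      rw [← hY] at a4 ⊢
      have a5 : (Y - X) ^ 2 ≤ 1 := by
        rw [← sq_abs]
        exact pow_le_one₀ (abs_nonneg _) a4
      nlinarith [sq_nonneg ((Y - v q j) + (Y - X))]
    have e2 : ∑ j : Fin L, ((ord (n + j + 1) - ord n) * Real.log (ord n) / (2 * Real.pi) -
        (v q j + (0 : Fin L → ℝ) j)) ^ 2 = ∑ j ∈ Finset.range L,
        ((ord (n + j + 1) - ord n) * Real.log (ord n) / (2 * Real.pi) - (v q j + 0)) ^ 2 :=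
      Fin.sum_univ_eq_sum_range (fun j : ℕ => ((ord (n + j + 1) - ord n) * Real.log (ord n) / (2 * Real.pi) -
        (v q j + 0)) ^ 2) L
    rw [e2]
    refine (Finset.sum_le_sum hterm).trans ?_
    rw [Finset.sum_add_distrib, ← Finset.mul_sum, Finset.sum_const, Finset.card_range, nsmul_eq_mul]
    nlinarith
  have hU : (((S1 ∪ S2) ∪ Set.Iio n0).ncard : ℝ) ≤ S1.ncard + S2.ncard + n0 := by
    have a1 := Set.ncard_union_le (S1 ∪ S2) (Set.Iio n0)
    have a2 := Set.ncard_union_le S1 S2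
    have a3 : (Set.Iio n0).ncard = n0 := by
      rw [← Finset.coe_Iio, Set.ncard_coe_finset, Nat.card_Iio]
    rw [a3] at a1
    exact_mod_cast a1.trans (Nat.add_le_add_right a2 _)
  have hmono := Set.ncard_le_ncard hsub ((hf1.union hf2).union hfI)
  have hmono' : (({n : ℕ | 1 ≤ n ∧ n ≤ N ∧ ∃ q,
        ∑ j ∈ Finset.range L, (yy (n + (j + 1)) - yy n - v q j) ^ 2 ≤ 1 / 5000 * (L * Real.log L)}.ncard : ℕ) : ℝ) ≤
      (((S1 ∪ S2) ∪ Set.Iio n0).ncard : ℝ) := by exact_mod_cast hmono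
  refine hmono'.trans (hU.trans ?_)
  have hN0' : (0 : ℝ) ≤ N := Nat.cast_nonneg _
  nlinarith

end Pool.Agent.X112.WE
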